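import Mathlib

open Finset

namespace Pool.Agent.Lib.MP_b06f47_pr

/-- The distance-`k` hypercube `Q_{k,n}`: vertices are the elements of `{0,1}^n`, and two vertices
are adjacent if and only if their Hamming distance lies in `{1, ..., k}`. -/
def distCube (k n : ℕ) : SimpleGraph (Fin n → Bool) where
  Adj x y := 1 ≤ hammingDist x y ∧ hammingDist x y ≤ k
  symm := ⟨fun x y h => by rwa [hammingDist_comm y x]⟩
  loopless := ⟨fun x h => by simp at h⟩

open Classical in
/-- One step of `r`-neighbour bootstrap percolation on `G`. -/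
noncomputable def bootStep {V : Type*} [Fintype V] (G : SimpleGraph V) (r : ℝ) (A : Finset V) :
    Finset V :=
  A ∪ univ.filter fun v => r ≤ (#{w ∈ A | G.Adj v w} : ℝ)

/-- The set `A` percolates: the union of the sets `A_0 = A`, `A_{i+1} = bootStep G r A_i` is the
whole vertex set. -/
def Percolates {V : Type*} [Fintype V] (G : SimpleGraph V) (r : ℝ) (A : Finset V) : Prop :=
  ∀ v : V, ∃ i : ℕ, v ∈ (bootStep G r)^[i] A

open Classical in
/-- The probability that a random set `A`, to which each vertex belongs independently with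
probability `p`, percolates. -/
noncomputable def percProb {V : Type*} [Fintype V] (G : SimpleGraph V) (r p : ℝ) : ℝ :=
  ∑ A : Finset V, if Percolates G r A then p ^ #A * (1 - p) ^ (Fintype.card V - #A) else 0

/-- The critical probability `sup {p ∈ (0,1) : P_p(A percolates) ≤ 1/2}`. -/
noncomputable def critProb {V : Type*} [Fintype V] (G : SimpleGraph V) (r : ℝ) : ℝ :=
  sSup {p : ℝ | 0 < p ∧ p < 1 ∧ percProb G r p ≤ 1 / 2}

/-- The common degree `N = ∑_{i=1}^k (n choose i)` of the vertices of `Q_{k,n}`. -/
def cubeDegree (k n : ℕ) : ℕ := ∑ i ∈ Icc 1 k, n.choose i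

end Pool.Agent.Lib.MP_b06f47_pr
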