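import Mathlib

/-! Combinatorics of the distance-`k` hypercube. -/

open Finset

namespace Pool.Agent.Lib.MP_b06f47_pr

/-- Vertices of the hypercube. -/
abbrev Cube (n : ℕ) := Fin n → Bool

variable {n : ℕ}

/-- The set of coordinates where `x` and `y` differ. -/
def diff (x y : Cube n) : Finset (Fin n) := univ.filter fun i => x i ≠ y i

/-- Flip the coordinates in `S`. -/
def flip (x : Cube n) (S : Finset (Fin n)) : Cube n := fun i => if i ∈ S then !(x i) else x i

lemma hammingDist_eq (x y : Cube n) : hammingDist x y = #(diff x y) := rfl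

lemma mem_diff {x y : Cube n} {i : Fin n} : i ∈ diff x y ↔ x i ≠ y i := by simp [diff]

lemma diff_comm (x y : Cube n) : diff x y = diff y x := by
  ext i; simp [mem_diff, ne_comm]

lemma diff_flip (x : Cube n) (S : Finset (Fin n)) : diff x (flip x S) = S := by
  ext i; rw [mem_diff]; unfold flip
  by_cases h : i ∈ S <;> simp [h]

lemma flip_diff (x y : Cube n) : flip x (diff x y) = y := by
  funext i; unfold flip
  by_cases h : i ∈ diff x y
  · rw [if_pos h]; rw [mem_diff] at h
    cases hx : x i <;> cases hy : y i <;> simp_all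
  · rw [if_neg h]; rw [mem_diff] at h; simpa using h

lemma diff_symmDiff (x y z : Cube n) : symmDiff (diff x y) (diff y z) = diff x z := by
  ext i; rw [mem_symmDiff, mem_diff, mem_diff, mem_diff]
  cases x i <;> cases y i <;> cases z i <;> simp

lemma flip_injective (x : Cube n) : Function.Injective (flip x) := by
  intro S T h
  rw [← diff_flip x S, h, diff_flip]

lemma diff_flip_flip (x : Cube n) (S T : Finset (Fin n)) :
    diff (flip x S) (flip x T) = symmDiff S T := by
  rw [← diff_symmDiff (flip x S) x (flip x T), diff_comm (flip x S) x, diff_flip, diff_flip]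

/-- Neighbourhood of a vertex in the distance-`k` hypercube. -/
def nbhd (k : ℕ) (x : Cube n) : Finset (Cube n) :=
  univ.filter fun y => 1 ≤ #(diff x y) ∧ #(diff x y) ≤ k

lemma mem_nbhd {k : ℕ} {x y : Cube n} : y ∈ nbhd k x ↔ 1 ≤ #(diff x y) ∧ #(diff x y) ≤ k := by
  simp [nbhd]

/-- Sphere of radius `j`. -/
def sphere (j : ℕ) (x : Cube n) : Finset (Cube n) := univ.filter fun y => #(diff x y) = j

lemma mem_sphere {j : ℕ} {x y : Cube n} : y ∈ sphere j x ↔ #(diff x y) = j := by simp [sphere]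

/-- Subsets of `Fin n` of size at most `m`. -/
def small (n m : ℕ) : Finset (Finset (Fin n)) := univ.filter fun H => #H ≤ m

lemma mem_small {m : ℕ} {H : Finset (Fin n)} : H ∈ small n m ↔ #H ≤ m := by simp [small]

lemma card_small (n m : ℕ) : #(small n m) = ∑ i ∈ range (m + 1), n.choose i := by
  have h : small n m = (range (m + 1)).biUnion fun i => powersetCard i (univ : Finset (Fin n)) := by
    ext H
    simp only [mem_small, mem_biUnion, mem_range, mem_powersetCard_univ]
    constructor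
    · intro h; exact ⟨#H, by omega, rfl⟩
    · rintro ⟨i, hi, rfl⟩; omega
  rw [h, card_biUnion]
  · refine sum_congr rfl fun i _ => ?_
    rw [card_powersetCard, card_univ, Fintype.card_fin]
  · intro i _ j _ hij
    exact Finset.pairwise_disjoint_powersetCard _ hij

lemma card_small_le (hn : 1 ≤ n) (m : ℕ) : #(small n m) ≤ (m + 1) * n ^ m := by
  rw [card_small]
  calc ∑ i ∈ range (m + 1), n.choose i ≤ ∑ _i ∈ range (m + 1), n ^ m := by
        refine sum_le_sum fun i hi => ?_
        refine (Nat.choose_le_pow n i).trans (Nat.pow_le_pow_right hn ?_)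
        have := mem_range.1 hi; omega
    _ = (m + 1) * n ^ m := by simp

lemma card_nbhd (k : ℕ) (x : Cube n) : #(nbhd k x) = ∑ i ∈ Icc 1 k, n.choose i := by
  have h : nbhd k x
      = ((Icc 1 k).biUnion fun i => powersetCard i (univ : Finset (Fin n))).image (flip x) := by
    ext y
    simp only [mem_nbhd, mem_image, mem_biUnion, mem_Icc, mem_powersetCard_univ]
    constructor
    · intro h
      exact ⟨diff x y, ⟨#(diff x y), h, rfl⟩, flip_diff x y⟩
    · rintro ⟨S, ⟨i, hi, rfl⟩, rfl⟩
      rw [diff_flip]; exact hi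
  rw [h, card_image_of_injective _ (flip_injective x), card_biUnion]
  · refine sum_congr rfl fun i _ => ?_
    rw [card_powersetCard, card_univ, Fintype.card_fin]
  · intro i _ j _ hij
    exact Finset.pairwise_disjoint_powersetCard _ hij

lemma card_small_eq (k : ℕ) (x : Cube n) : #(small n k) = #(nbhd k x) + 1 := by
  rw [card_small, card_nbhd, range_eq_Ico, sum_eq_sum_Ico_succ_bot (by omega)]
  have : Ico (0 + 1) (k + 1) = Icc 1 k := by ext i; simp only [mem_Ico, mem_Icc]; omega
  rw [this, Nat.choose_zero_right, add_comm]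

/-- The key set-theoretic observation. -/
lemma key_sets {k : ℕ} {D X Y : Finset (Fin n)} (hX : #X ≤ k) (hY : #Y ≤ k)
    (hD : #(symmDiff D (symmDiff X Y)) = #D) :
    #(X ∩ Y ∪ symmDiff X Y \ D) ≤ k ∧ X ⊆ (X ∩ Y ∪ symmDiff X Y \ D) ∪ D ∧
      Y ⊆ (X ∩ Y ∪ symmDiff X Y \ D) ∪ D ∧
      #(symmDiff X Y \ D) = #(symmDiff X Y ∩ D) := by
  set Z := symmDiff X Y with hZ
  have h1 : #(Z \ D) = #(Z ∩ D) := by
    have e1 : #(symmDiff D Z) = #(D \ Z) + #(Z \ D) := by
      rw [symmDiff_def, sup_eq_union, card_union_of_disjoint]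
      exact disjoint_sdiff_sdiff
    have e2 : #(D \ Z) + #(D ∩ Z) = #D := card_sdiff_add_card_inter D Z
    rw [inter_comm Z D]
    omega
  have h2 : #Z = #(Z \ D) + #(Z ∩ D) := (card_sdiff_add_card_inter Z D).symm
  have h3 : #Z = #(X \ Y) + #(Y \ X) := by
    rw [hZ, symmDiff_def, sup_eq_union, card_union_of_disjoint]
    exact disjoint_sdiff_sdiff
  have h4 : #(X \ Y) + #(X ∩ Y) = #X := card_sdiff_add_card_inter X Y
  have h5 : #(Y \ X) + #(Y ∩ X) = #Y := card_sdiff_add_card_inter Y X
  rw [inter_comm Y X] at h5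
  refine ⟨?_, ?_, ?_, h1⟩
  · have := card_union_le (X ∩ Y) (Z \ D)
    omega
  · intro i hi
    by_cases hiY : i ∈ Y
    · simp [hi, hiY]
    · have : i ∈ Z := by rw [hZ, mem_symmDiff]; exact Or.inl ⟨hi, hiY⟩
      by_cases hiD : i ∈ D
      · simp [hiD]
      · simp [this, hiD]
  · intro i hi
    by_cases hiX : i ∈ X
    · simp [hi, hiX]
    · have : i ∈ Z := by rw [hZ, mem_symmDiff]; exact Or.inr ⟨hi, hiX⟩
      by_cases hiD : i ∈ D
      · simp [hiD]
      · simp [this, hiD]

/-- Counting pairs `(X, Y)` both contained in `H ∪ D` for some `H` in a family. -/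
lemma card_pairs_le {k : ℕ} (D : Finset (Fin n)) (hDk : #D ≤ k)
    (𝓗 : Finset (Finset (Fin n))) (h𝓗 : ∀ H ∈ 𝓗, #H ≤ k)
    (Q : Finset (Finset (Fin n) × Finset (Fin n)))
    (hQ : ∀ q ∈ Q, ∃ H ∈ 𝓗, q.1 ⊆ H ∪ D ∧ q.2 ⊆ H ∪ D) : #Q ≤ #𝓗 * 16 ^ k := by
  have h1 : Q ⊆ 𝓗.biUnion fun H => (H ∪ D).powerset ×ˢ (H ∪ D).powerset := by
    intro q hq
    obtain ⟨H, hH, h2, h3⟩ := hQ q hq
    simp only [mem_biUnion, mem_product, mem_powerset]
    exact ⟨H, hH, h2, h3⟩
  refine (card_le_card h1).trans ?_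
  refine card_biUnion_le_card_mul _ _ _ fun H hH => ?_
  rw [card_product, card_powerset]
  have h2 : #(H ∪ D) ≤ 2 * k := by
    have := card_union_le H D
    have := h𝓗 H hH
    omega
  have h3 : 2 ^ #(H ∪ D) ≤ 2 ^ (2 * k) := Nat.pow_le_pow_right (by norm_num) h2
  calc 2 ^ #(H ∪ D) * 2 ^ #(H ∪ D) ≤ 2 ^ (2 * k) * 2 ^ (2 * k) := Nat.mul_le_mul h3 h3
    _ = 16 ^ k := by rw [← pow_add, ← two_mul, ← mul_assoc]; norm_num [pow_mul]

/-- Overlap bound on a sphere. -/
lemma overlap_sphere {k j : ℕ} (hj : j ≤ k) (v w : Cube n) (hw : w ∈ sphere j v) :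
    ∑ w' ∈ sphere j v, #(nbhd k w ∩ nbhd k w') ≤ 16 ^ k * #(small n k) := by
  set D := diff v w with hD
  have hDj : #D = j := mem_sphere.1 hw
  -- encode the pairs
  set Q : Finset (Finset (Fin n) × Finset (Fin n)) :=
    ((sphere j v).sigma fun w' => nbhd k w ∩ nbhd k w').image
      fun q => (diff w q.2, diff q.2 q.1) with hQ
  have hcard : ∑ w' ∈ sphere j v, #(nbhd k w ∩ nbhd k w') = #Q := by
    rw [hQ, card_image_of_injOn, card_sigma]
    rintro ⟨w1, u1⟩ _ ⟨w2, u2⟩ _ h
    simp only [Prod.mk.injEq] at h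
    have e1 : u1 = u2 := by rw [← flip_diff w u1, h.1, flip_diff]
    subst e1
    have e2 : w1 = w2 := by rw [← flip_diff u1 w1, h.2, flip_diff]
    rw [e2]
  rw [hcard, mul_comm]
  refine card_pairs_le D (hDj.le.trans hj) (small n k) (fun H hH => mem_small.1 hH) Q ?_
  intro q hq
  rw [hQ, mem_image] at hq
  obtain ⟨⟨w', u⟩, hmem, rfl⟩ := hq
  rw [mem_sigma, mem_inter] at hmem
  obtain ⟨h1, h2, h3⟩ := hmem
  simp only at h1 h2 h3
  have hX : #(diff w u) ≤ k := (mem_nbhd.1 h2).2
  have hY : #(diff u w') ≤ k := by rw [diff_comm]; exact (mem_nbhd.1 h3).2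
  have hDD : #(symmDiff D (symmDiff (diff w u) (diff u w'))) = #D := by
    rw [diff_symmDiff, hD, diff_symmDiff, mem_sphere.1 h1, mem_sphere.1 hw]
  obtain ⟨a, b, c, _⟩ := key_sets hX hY hDD
  exact ⟨_, mem_small.2 a, b, c⟩

/-! ### The private sets -/

/-- The first `M` coordinates. -/
def low (n M : ℕ) : Finset (Fin n) := univ.filter fun i => i.val < M

lemma mem_low {M : ℕ} {i : Fin n} : i ∈ low n M ↔ i.val < M := by simp [low]

lemma card_low {M : ℕ} (hM : M ≤ n) : #(low n M) = M := by
  have : low n M = (univ : Finset (Fin M)).map (Fin.castLEEmb hM) := by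
    ext i
    simp only [mem_low, mem_map, mem_univ, true_and]
    constructor
    · intro h; exact ⟨⟨i.val, h⟩, by ext; simp⟩
    · rintro ⟨j, rfl⟩; simp
  rw [this, card_map, card_univ, Fintype.card_fin]

/-- The `k`-subsets of the first `M` coordinates. -/
def tops (n M k : ℕ) : Finset (Finset (Fin n)) := powersetCard k (low n M)

lemma mem_tops {M k : ℕ} {W : Finset (Fin n)} : W ∈ tops n M k ↔ W ⊆ low n M ∧ #W = k := by
  simp [tops, mem_powersetCard]

lemma card_tops {M k : ℕ} (hM : M ≤ n) : #(tops n M k) = M.choose k := by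
  rw [tops, card_powersetCard, card_low hM]

/-- Private neighbours of `flip v W`. -/
def priv (v : Cube n) (M k : ℕ) (W : Finset (Fin n)) : Finset (Cube n) :=
  (powersetCard k (low n M)ᶜ).image fun X => flip v (W ∪ X)

lemma card_priv {v : Cube n} {M k : ℕ} (hM : M ≤ n) {W : Finset (Fin n)} (hW : W ∈ tops n M k) :
    #(priv v M k W) = (n - M).choose k := by
  rw [priv, card_image_of_injOn, card_powersetCard, card_compl, card_low hM, Fintype.card_fin]
  intro X hX Y hY h
  have h' : W ∪ X = W ∪ Y := flip_injective v h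
  rw [mem_coe, mem_powersetCard] at hX hY
  have hWl := (mem_tops.1 hW).1
  ext i
  by_cases hi : i ∈ low n M
  · constructor
    · intro h; exact absurd hi (mem_compl.1 (hX.1 h))
    · intro h; exact absurd hi (mem_compl.1 (hY.1 h))
  · have hiW : i ∉ W := fun h => hi (hWl h)
    have : i ∈ W ∪ X ↔ i ∈ W ∪ Y := by rw [h']
    simpa [hiW] using this

lemma priv_subset_nbhd {v : Cube n} {M k : ℕ} (hk : 1 ≤ k) {W : Finset (Fin n)}
    (hW : W ∈ tops n M k) : priv v M k W ⊆ nbhd k (flip v W) := by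
  intro u hu
  rw [priv, mem_image] at hu
  obtain ⟨X, hX, rfl⟩ := hu
  rw [mem_powersetCard] at hX
  have hWl := (mem_tops.1 hW).1
  have hdis : Disjoint W X := by
    rw [disjoint_left]; intro i hi hiX
    exact (mem_compl.1 (hX.1 hiX)) (hWl hi)
  have : symmDiff W (W ∪ X) = X := by
    ext i
    rw [mem_symmDiff, mem_union]
    have hnot : i ∈ W → i ∉ X := fun h1 h2 => (disjoint_left.1 hdis) h1 h2
    tauto
  rw [mem_nbhd, diff_flip_flip, this, hX.2]
  exact ⟨hk, le_rfl⟩

lemma diff_of_mem_priv {v : Cube n} {M k : ℕ} {W : Finset (Fin n)} {u : Cube n}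
    (hu : u ∈ priv v M k W) (hW : W ∈ tops n M k) :
    diff v u ∩ low n M = W ∧ #(diff v u) = 2 * k := by
  rw [priv, mem_image] at hu
  obtain ⟨X, hX, rfl⟩ := hu
  rw [mem_powersetCard] at hX
  have hWl := (mem_tops.1 hW).1
  have hdis : Disjoint W X := by
    rw [disjoint_left]; intro i hi hiX
    exact (mem_compl.1 (hX.1 hiX)) (hWl hi)
  rw [diff_flip]
  constructor
  · ext i
    rw [mem_inter, mem_union]
    constructor
    · rintro ⟨h1 | h1, h2⟩
      · exact h1
      · exact absurd h2 (mem_compl.1 (hX.1 h1))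
    · intro h; exact ⟨Or.inl h, hWl h⟩
  · rw [card_union_of_disjoint hdis, (mem_tops.1 hW).2, hX.2]; ring

/-- The block attached to `W`: the vertex `flip v W` and its private neighbours. -/
def block (v : Cube n) (M k : ℕ) (W : Finset (Fin n)) : Finset (Cube n) :=
  insert (flip v W) (priv v M k W)

lemma flip_notMem_priv {v : Cube n} {M k : ℕ} (hk : 1 ≤ k) {W W' : Finset (Fin n)}
    (hW : W ∈ tops n M k) (hW' : W' ∈ tops n M k) : flip v W ∉ priv v M k W' := by
  intro h
  have := (diff_of_mem_priv h hW').2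
  rw [diff_flip, (mem_tops.1 hW).2] at this
  omega

lemma block_disjoint {v : Cube n} {M k : ℕ} (hk : 1 ≤ k) {W W' : Finset (Fin n)}
    (hW : W ∈ tops n M k) (hW' : W' ∈ tops n M k) (hne : W ≠ W') :
    Disjoint (block v M k W) (block v M k W') := by
  rw [disjoint_left]
  intro u hu hu'
  rw [block, mem_insert] at hu hu'
  rcases hu with rfl | hu
  · rcases hu' with h | h
    · exact hne (flip_injective v h)
    · exact flip_notMem_priv hk hW hW' h
  · rcases hu' with rfl | hu'
    · exact flip_notMem_priv hk hW' hW hu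
    · exact hne ((diff_of_mem_priv hu hW).1.symm.trans (diff_of_mem_priv hu' hW').1)

/-- The shared neighbours of `flip v W`. -/
def shared (v : Cube n) (M k : ℕ) (W : Finset (Fin n)) : Finset (Cube n) :=
  nbhd k (flip v W) \ priv v M k W

/-- Subsets of size at most `k`, which meet `low n M` if their size is exactly `k`. -/
def restr (n M k : ℕ) : Finset (Finset (Fin n)) :=
  univ.filter fun H => #H ≤ k ∧ (#H = k → (H ∩ low n M).Nonempty)

lemma card_restr_le {M k : ℕ} (hk : 1 ≤ k) (hM : M ≤ n) :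
    #(restr n M k) ≤ (M + 1) * #(small n (k - 1)) := by
  have h : restr n M k ⊆ small n (k - 1) ∪
      ((low n M) ×ˢ (small n (k - 1))).image fun q => insert q.1 q.2 := by
    intro H hH
    simp only [restr, mem_filter, mem_univ, true_and] at hH
    rw [mem_union, mem_small, mem_image]
    by_cases hc : #H = k
    · right
      obtain ⟨i, hi⟩ := hH.2 hc
      rw [mem_inter] at hi
      refine ⟨(i, H.erase i), ?_, insert_erase hi.1⟩
      rw [mem_product, mem_small]
      exact ⟨hi.2, by rw [card_erase_of_mem hi.1, hc]⟩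
    · left; omega
  refine (card_le_card h).trans ((card_union_le _ _).trans ?_)
  have h2 := card_image_le (s := (low n M) ×ˢ (small n (k - 1)))
    (f := fun q : Fin n × Finset (Fin n) => insert q.1 q.2)
  rw [card_product, card_low hM] at h2
  calc #(small n (k - 1)) + _ ≤ #(small n (k - 1)) + M * #(small n (k - 1)) := by gcongr
    _ = (M + 1) * #(small n (k - 1)) := by ring

/-- Overlap bound for the shared parts. -/
lemma overlap_shared {M k : ℕ} (v : Cube n) {W : Finset (Fin n)}
    (hW : W ∈ tops n M k) :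
    ∑ W' ∈ tops n M k, #(shared v M k W ∩ shared v M k W') ≤ 16 ^ k * #(restr n M k) := by
  have hWk : #W = k := (mem_tops.1 hW).2
  set Q : Finset (Finset (Fin n) × Finset (Fin n)) :=
    ((tops n M k).sigma fun W' => shared v M k W ∩ shared v M k W').image
      fun q => (diff (flip v W) q.2, diff q.2 (flip v q.1)) with hQ
  have hcard : ∑ W' ∈ tops n M k, #(shared v M k W ∩ shared v M k W') = #Q := by
    rw [hQ, card_image_of_injOn, card_sigma]
    rintro ⟨w1, u1⟩ _ ⟨w2, u2⟩ _ h
    simp only [Prod.mk.injEq] at h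
    have e1 : u1 = u2 := by rw [← flip_diff (flip v W) u1, h.1, flip_diff]
    subst e1
    have e2 : w1 = w2 := flip_injective v (by rw [← flip_diff u1 (flip v w1), h.2, flip_diff])
    rw [e2]
  rw [hcard, mul_comm]
  refine card_pairs_le W hWk.le (restr n M k) (fun H hH => ?_) Q ?_
  · simp only [restr, mem_filter, mem_univ, true_and] at hH; exact hH.1
  intro q hq
  rw [hQ, mem_image] at hq
  obtain ⟨⟨W', u⟩, hmem, rfl⟩ := hq
  rw [mem_sigma, mem_inter] at hmem
  obtain ⟨h1, h2, h3⟩ := hmem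
  simp only at h1 h2 h3
  rw [shared, mem_sdiff] at h2 h3
  set X := diff (flip v W) u with hXdef
  set Y := diff u (flip v W') with hYdef
  have hX : #X ≤ k := (mem_nbhd.1 h2.1).2
  have hY : #Y ≤ k := by rw [hYdef, diff_comm]; exact (mem_nbhd.1 h3.1).2
  have hZ : symmDiff X Y = symmDiff W W' := by
    rw [hXdef, hYdef, diff_symmDiff, diff_flip_flip]
  have hDD : #(symmDiff W (symmDiff X Y)) = #W := by
    rw [hZ, symmDiff_symmDiff_cancel_left, (mem_tops.1 h1).2, hWk]
  obtain ⟨a, b, c, d⟩ := key_sets hX hY hDD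
  refine ⟨_, ?_, b, c⟩
  simp only [restr, mem_filter, mem_univ, true_and]
  refine ⟨a, fun hk => ?_⟩
  by_contra hne
  rw [not_nonempty_iff_eq_empty] at hne
  have hZl : symmDiff X Y ⊆ low n M := by
    rw [hZ]; intro i hi
    rw [mem_symmDiff] at hi
    rcases hi with hi | hi
    · exact (mem_tops.1 hW).1 hi.1
    · exact (mem_tops.1 h1).1 hi.1
  have hZD : symmDiff X Y \ W = ∅ := by
    rw [eq_empty_iff_forall_notMem]
    intro i hi
    have h4 : i ∈ (X ∩ Y ∪ symmDiff X Y \ W) ∩ low n M :=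
      mem_inter.2 ⟨mem_union_right _ hi, hZl (mem_sdiff.1 hi).1⟩
    rw [hne] at h4
    exact notMem_empty i h4
  rw [hZD, card_empty] at d
  have hZW : symmDiff X Y ∩ W = ∅ := card_eq_zero.1 d.symm
  have hZ0 : symmDiff X Y = ∅ := by
    rw [← sdiff_union_inter (symmDiff X Y) W, hZD, hZW, empty_union]
  have hXY : X = Y := symmDiff_eq_bot.1 hZ0
  rw [hZD, union_empty, ← hXY, inter_self] at hk hne
  -- then `u` would be a private neighbour
  apply h2.2
  rw [priv, mem_image]
  refine ⟨X, mem_powersetCard.2 ⟨?_, hk⟩, ?_⟩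
  · intro i hi
    rw [mem_compl]
    intro hil
    have : i ∈ X ∩ low n M := mem_inter.2 ⟨hi, hil⟩
    rw [hne] at this
    exact notMem_empty i this
  · have hdis : Disjoint W X := by
      rw [disjoint_left]; intro i hi hiX
      have : i ∈ X ∩ low n M := mem_inter.2 ⟨hiX, (mem_tops.1 hW).1 hi⟩
      rw [hne] at this
      exact notMem_empty i this
    have e : W ∪ X = symmDiff W X := by
      rw [← sup_eq_union, hdis.symmDiff_eq_sup]
    have e2 : diff v u = symmDiff W X := by
      rw [← diff_symmDiff v (flip v W) u, diff_flip]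
    rw [e, ← e2, flip_diff]

end Pool.Agent.Lib.MP_b06f47_pr
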