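import Pool.Agent.Lib.MP_b06f47_pr.Hoeffding

/-! A moderate-deviation lower bound for the binomial law, by tilting. -/

open Finset

namespace Pool.Agent.Lib.MP_b06f47_pr

variable {V : Type*} [DecidableEq V]

lemma neg_log_one_sub_le {x : ℝ} (h0 : 0 ≤ x) (h1 : x ≤ 1 / 2) : - Real.log (1 - x) ≤ 2 * x := by
  have hpos : 0 < 1 - x := by linarith
  have h := Real.log_le_sub_one_of_pos (inv_pos.2 hpos)
  rw [Real.log_inv] at h
  refine h.trans ?_
  have : (1 - x)⁻¹ ≤ 2 * x + 1 := by
    rw [inv_le_iff_one_le_mul₀ hpos]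
    nlinarith
  linarith

lemma log_ratio_le {x : ℝ} (h0 : 0 ≤ x) (h1 : x ≤ 1 / 2) :
    Real.log (1 + x) - Real.log (1 - x) ≤ 3 * x := by
  have h2 := neg_log_one_sub_le h0 h1
  have h3 := Real.log_le_sub_one_of_pos (show 0 < 1 + x by linarith)
  linarith

/-- Comparison of the weights of a set whose size is slightly more than half. -/
lemma weight_compare {e d y M S : ℝ} (he0 : 0 ≤ e) (he1 : e ≤ 1 / 8) (hd0 : 0 ≤ d)
    (hd1 : d ≤ 1 / 8) (hM : 0 ≤ M) (hS1 : M / 2 ≤ S) (hS2 : S ≤ M / 2 + 3 * y) :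
    -(4 * e ^ 2 * M + 18 * y * e + 18 * y * d)
      + (S * Real.log (1 / 2 + d) + (M - S) * Real.log (1 - (1 / 2 + d)))
      ≤ S * Real.log (1 / 2 - e) + (M - S) * Real.log (1 - (1 / 2 - e)) := by
  have hy : 0 ≤ y := by linarith
  have l1 : Real.log (1 / 2 + d) = Real.log (1 + 2 * d) - Real.log 2 := by
    rw [← Real.log_div (by positivity) (by norm_num)]; congr 1; ring
  have l2 : Real.log (1 - (1 / 2 + d)) = Real.log (1 - 2 * d) - Real.log 2 := by
    rw [← Real.log_div (by linarith) (by norm_num)]; congr 1; ring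
  have l3 : Real.log (1 / 2 - e) = Real.log (1 - 2 * e) - Real.log 2 := by
    rw [← Real.log_div (by linarith) (by norm_num)]; congr 1; ring
  have l4 : Real.log (1 - (1 / 2 - e)) = Real.log (1 + 2 * e) - Real.log 2 := by
    rw [← Real.log_div (by positivity) (by norm_num)]; congr 1; ring
  rw [l1, l2, l3, l4]
  have hA : Real.log (1 + 2 * d) + Real.log (1 - 2 * d) ≤ 0 := by
    rw [← Real.log_mul (by positivity) (by linarith)]
    apply Real.log_nonpos
    · nlinarith
    · nlinarith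
  have hB : -(8 * e ^ 2) ≤ Real.log (1 - 2 * e) + Real.log (1 + 2 * e) := by
    rw [← Real.log_mul (by linarith) (by positivity)]
    have h := neg_log_one_sub_le (x := 4 * e ^ 2) (by positivity) (by nlinarith)
    have e1 : (1 - 2 * e) * (1 + 2 * e) = 1 - 4 * e ^ 2 := by ring
    rw [e1]; linarith
  have hC := log_ratio_le (x := 2 * d) (by positivity) (by linarith)
  have hD := log_ratio_le (x := 2 * e) (by positivity) (by linarith)
  set a := Real.log (1 + 2 * d)
  set b := Real.log (1 - 2 * d)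
  set c := Real.log (1 - 2 * e)
  set f := Real.log (1 + 2 * e)
  set g := Real.log 2
  have hu0 : 0 ≤ S - M / 2 := by linarith
  have hu1 : S - M / 2 ≤ 3 * y := by linarith
  -- difference = (M/2)((c+f) - (a+b)) + (S-M/2)((c-f) - (a-b))
  have key : S * (c - g) + (M - S) * (f - g) - (S * (a - g) + (M - S) * (b - g))
      = M / 2 * ((c + f) - (a + b)) + (S - M / 2) * ((c - f) - (a - b)) := by ring
  have h1 : -(4 * e ^ 2 * M) ≤ M / 2 * ((c + f) - (a + b)) := by
    have : -(8 * e ^ 2) ≤ (c + f) - (a + b) := by linarith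
    have := mul_le_mul_of_nonneg_left this (show 0 ≤ M / 2 by linarith)
    linarith
  have h2 : -(18 * y * e + 18 * y * d) ≤ (S - M / 2) * ((c - f) - (a - b)) := by
    have h3 : -(6 * e + 6 * d) ≤ (c - f) - (a - b) := by linarith
    have h4 := mul_le_mul_of_nonneg_left h3 hu0
    have h5 : (S - M / 2) * (6 * e + 6 * d) ≤ 3 * y * (6 * e + 6 * d) := by gcongr
    linarith
  linarith

lemma pow_weight_eq {p : ℝ} (hp0 : 0 < p) (hp1 : p < 1) (a b : ℕ) :
    p ^ a * (1 - p) ^ b = Real.exp (a * Real.log p + b * Real.log (1 - p)) := by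
  rw [Real.exp_add, Real.exp_nat_mul, Real.exp_nat_mul, Real.exp_log hp0,
    Real.exp_log (by linarith)]

lemma exp_neg_two_le : Real.exp (-2) ≤ 1 / 4 := by
  have h1 : (2 : ℝ) ≤ Real.exp 1 := by
    have := Real.add_one_le_exp (1 : ℝ); linarith
  have h2 : Real.exp 2 = Real.exp 1 * Real.exp 1 := by rw [← Real.exp_add]; norm_num
  have h3 : (4 : ℝ) ≤ Real.exp 2 := by rw [h2]; nlinarith
  rw [Real.exp_neg, inv_le_comm₀ (Real.exp_pos 2) (by norm_num)]
  linarith

/-- Lower bound for the probability that a slightly unfavourable majority vote succeeds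
with margin `y`. -/
lemma tilt {e y : ℝ} (he0 : 0 ≤ e) (he1 : e ≤ 1 / 8) (P : Finset V) (hP : 0 < #P)
    (hy1 : 4 * (#P : ℝ) ≤ y ^ 2) (hy2 : 16 * y ≤ #P) (hy0 : 0 ≤ y) :
    1 / 2 * Real.exp (-(4 * e ^ 2 * #P + 18 * y * e + 36 * y ^ 2 / #P))
      ≤ Pr (1 / 2 - e) P (fun A => (#P : ℝ) / 2 + y ≤ #A) := by
  set M : ℝ := ((#P : ℕ) : ℝ) with hM
  have hMpos : 0 < M := by rw [hM]; exact_mod_cast hP
  set d := 2 * y / M with hd
  have hd0 : 0 ≤ d := by positivity
  have hd1 : d ≤ 1 / 8 := by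
    rw [hd, div_le_iff₀ hMpos]; linarith
  set p := 1 / 2 - e with hp
  set q := 1 / 2 + d with hq
  have hp0 : 0 < p := by rw [hp]; linarith
  have hp1 : p < 1 := by rw [hp]; linarith
  have hq0 : 0 < q := by rw [hq]; linarith
  have hq1 : q < 1 := by rw [hq]; linarith
  set R := Real.exp (-(4 * e ^ 2 * M + 18 * y * e + 36 * y ^ 2 / M)) with hR
  -- window event
  set W : Finset V → Prop := fun A => M / 2 + y ≤ #A ∧ (#A : ℝ) ≤ M / 2 + 3 * y with hW
  have hcomp : R * Pr q P W ≤ Pr p P W := by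
    unfold Pr
    rw [← Ex_mul_left]
    unfold Ex
    refine sum_le_sum fun A hA => ?_
    have hA' := mem_powerset.1 hA
    show q ^ #A * (1 - q) ^ #(P \ A) * (R * ind (W A)) ≤ p ^ #A * (1 - p) ^ #(P \ A) * ind (W A)
    by_cases hWA : W A
    · rw [ind_pos hWA, mul_one, mul_one, pow_weight_eq hq0 hq1, pow_weight_eq hp0 hp1, hR,
        ← Real.exp_add]
      apply Real.exp_le_exp.2
      have hcard : ((#(P \ A) : ℕ) : ℝ) = M - #A := by
        rw [card_sdiff_of_subset hA', Nat.cast_sub (card_le_card hA')]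
      rw [hcard]
      have h := weight_compare (e := e) (d := d) (y := y) (M := M) (S := #A) he0 he1 hd0 hd1
        hMpos.le (by linarith [hWA.1]) hWA.2
      have h18 : 18 * y * d = 36 * y ^ 2 / M := by rw [hd]; field_simp; ring
      rw [h18] at h
      rw [hp, hq]
      linarith
    · rw [ind_neg hWA]; simp
  have hwin : 1 / 2 ≤ Pr q P W := by
    have h1 := hoeffding_card_le hq0.le hq1.le (Subset.refl P) (G := M) (z := y) hMpos
      (le_of_eq hM.symm) hy0
    have h2 := hoeffding_card_ge hq0.le hq1.le (Subset.refl P) (G := M) (z := y) hMpos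
      (le_of_eq hM.symm) hy0
    have h3 : Real.exp (-(y ^ 2 / (2 * M))) ≤ 1 / 4 := by
      refine (Real.exp_le_exp.2 ?_).trans exp_neg_two_le
      rw [neg_le_neg_iff, le_div_iff₀ (by positivity)]
      linarith
    have hqM : q * M = M / 2 + 2 * y := by rw [hq, hd]; field_simp
    have h4 : Pr q P (fun A => ¬ W A) ≤ 1 / 4 + 1 / 4 := by
      refine (Pr_mono hq0.le hq1.le (F := fun A => ((#(P ∩ A) : ℝ) ≤ q * #P - y) ∨
        (q * #P + y ≤ (#(P ∩ A) : ℝ))) ?_).trans
        ((Pr_or_le hq0.le hq1.le P _ _).trans (add_le_add (h1.trans h3) (h2.trans h3)))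
      intro A hA hn
      rw [inter_eq_right.2 hA, ← hM, hqM]
      by_contra hcon
      push Not at hcon
      exact hn ⟨by linarith [hcon.1], by linarith [hcon.2]⟩
    rw [Pr_not] at h4
    linarith
  calc 1 / 2 * R = R * (1 / 2) := by ring
    _ ≤ R * Pr q P W := by gcongr
    _ ≤ Pr p P W := hcomp
    _ ≤ Pr p P (fun A => M / 2 + y ≤ #A) := Pr_mono hp0.le hp1.le fun A _ h => h.1

end Pool.Agent.Lib.MP_b06f47_pr
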