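import Pool.Agent.Lib.MP_b06f47_pr.Defs
import Pool.Agent.Lib.MP_b06f47_pr.Graph
import Pool.Agent.Lib.MP_b06f47_pr.Tilt

/-! Deterministic facts on the bootstrap process and its link with `Pr`. -/

open Finset

namespace Pool.Agent.Lib.MP_b06f47_pr

open Classical in
lemma mem_bootStep {V : Type*} [Fintype V] {G : SimpleGraph V} {r : ℝ} {A : Finset V} {v : V} :
    v ∈ bootStep G r A ↔ v ∈ A ∨ r ≤ (#{w ∈ A | G.Adj v w} : ℝ) := by
  simp [bootStep]

lemma subset_bootStep {V : Type*} [Fintype V] (G : SimpleGraph V) (r : ℝ) (A : Finset V) :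
    A ⊆ bootStep G r A := fun _ h => mem_bootStep.2 (Or.inl h)

lemma bootStep_mono {V : Type*} [Fintype V] (G : SimpleGraph V) (r : ℝ) {A B : Finset V}
    (h : A ⊆ B) : bootStep G r A ⊆ bootStep G r B := by
  classical
  intro v hv
  rw [mem_bootStep] at hv ⊢
  rcases hv with hv | hv
  · exact Or.inl (h hv)
  · refine Or.inr (hv.trans ?_)
    exact_mod_cast card_le_card (filter_subset_filter (fun w => G.Adj v w) h)

lemma iterate_bootStep_mono {V : Type*} [Fintype V] (G : SimpleGraph V) (r : ℝ)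
    {A B : Finset V} (h : A ⊆ B) (i : ℕ) : (bootStep G r)^[i] A ⊆ (bootStep G r)^[i] B := by
  induction i generalizing A B with
  | zero => exact h
  | succ i ih =>
    rw [Function.iterate_succ_apply, Function.iterate_succ_apply]
    exact ih (bootStep_mono G r h)

lemma Percolates.mono {V : Type*} [Fintype V] {G : SimpleGraph V} {r : ℝ}
    {A B : Finset V} (h : A ⊆ B) (hA : Percolates G r A) : Percolates G r B := by
  intro v
  obtain ⟨i, hi⟩ := hA v
  exact ⟨i, iterate_bootStep_mono G r h i hi⟩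

lemma percProb_eq_Pr {V : Type*} [Fintype V] [DecidableEq V] (G : SimpleGraph V) (r p : ℝ) :
    percProb G r p = Pr p univ (Percolates G r) := by
  unfold percProb Pr Ex
  rw [powerset_univ]
  refine sum_congr rfl fun A _ => ?_
  show _ = p ^ #A * (1 - p) ^ #(univ \ A) * ind (Percolates G r A)
  rw [← compl_eq_univ_sdiff, card_compl]
  by_cases h : Percolates G r A
  · rw [if_pos h, ind_pos h, mul_one]
  · rw [if_neg h, ind_neg h, mul_zero]

variable {k n : ℕ}

lemma filter_adj (A : Finset (Cube n)) (v : Cube n) [DecidablePred ((distCube k n).Adj v)] :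
    {w ∈ A | (distCube k n).Adj v w} = nbhd k v ∩ A := by
  ext w
  simp only [mem_filter, mem_inter, mem_nbhd]
  rw [and_comm]
  rfl

lemma mem_bootStep_cube {r : ℝ} {A : Finset (Cube n)} {v : Cube n} :
    v ∈ bootStep (distCube k n) r A ↔ v ∈ A ∨ r ≤ (#(nbhd k v ∩ A) : ℝ) := by
  classical
  rw [mem_bootStep]
  rw [filter_adj]

/-- If no vertex has `m` neighbours whose initially infected neighbourhood is within `m` of the
threshold, the infection never leaves `A ∪ B`. -/
lemma closure_subset {r m : ℝ} {A : Finset (Cube n)}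
    (h : ∀ v : Cube n, (#(nbhd k v ∩ univ.filter fun w => r - m ≤ (#(nbhd k w ∩ A) : ℝ)) : ℝ) < m)
    (i : ℕ) : (bootStep (distCube k n) r)^[i] A
      ⊆ A ∪ univ.filter fun w => r - m ≤ (#(nbhd k w ∩ A) : ℝ) := by
  set B : Finset (Cube n) := univ.filter fun w => r - m ≤ (#(nbhd k w ∩ A) : ℝ) with hB
  induction i with
  | zero => exact subset_union_left
  | succ i ih =>
    rw [Function.iterate_succ_apply']
    intro v hv
    rw [mem_bootStep_cube] at hv
    rcases hv with hv | hv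
    · exact ih hv
    · rw [mem_union]
      right
      rw [hB, mem_filter]
      refine ⟨mem_univ _, ?_⟩
      have h1 : nbhd k v ∩ (bootStep (distCube k n) r)^[i] A ⊆ (nbhd k v ∩ A) ∪ (nbhd k v ∩ B) := by
        rw [← inter_union_distrib_left]
        exact inter_subset_inter_left ih
      have h2 : (#(nbhd k v ∩ (bootStep (distCube k n) r)^[i] A) : ℝ)
          ≤ #(nbhd k v ∩ A) + #(nbhd k v ∩ B) := by
        exact_mod_cast (card_le_card h1).trans (card_union_le _ _)
      have h3 := h v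
      linarith

/-- Pigeonhole over the spheres around `v`. -/
lemma exists_sphere {t : ℕ} {m : ℝ} (hk : 1 ≤ k) (hm : (k : ℝ) * t ≤ m) (v : Cube n)
    (B : Finset (Cube n)) (h : m ≤ (#(nbhd k v ∩ B) : ℝ)) :
    ∃ j ∈ Icc 1 k, t ≤ #(sphere j v ∩ B) := by
  by_contra hcon
  push Not at hcon
  have h1 : nbhd k v ∩ B ⊆ (Icc 1 k).biUnion fun j => sphere j v ∩ B := by
    intro w hw
    rw [mem_inter, mem_nbhd] at hw
    rw [mem_biUnion]
    exact ⟨#(diff v w), mem_Icc.2 hw.1, mem_inter.2 ⟨mem_sphere.2 rfl, hw.2⟩⟩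
  have h2 : #(nbhd k v ∩ B) ≤ ∑ j ∈ Icc 1 k, #(sphere j v ∩ B) :=
    (card_le_card h1).trans card_biUnion_le
  have h3 : ∑ j ∈ Icc 1 k, #(sphere j v ∩ B) < ∑ _j ∈ Icc 1 k, t :=
    sum_lt_sum_of_nonempty ⟨1, mem_Icc.2 ⟨le_rfl, hk⟩⟩ hcon
  rw [sum_const, Nat.card_Icc, smul_eq_mul, Nat.add_sub_cancel] at h3
  have h4 : (#(nbhd k v ∩ B) : ℝ) < (k : ℝ) * t := by exact_mod_cast lt_of_le_of_lt h2 h3
  linarith

/-- What percolation implies. -/
lemma percolates_imp {t : ℕ} {r m : ℝ} (hk : 1 ≤ k) (hm : (k : ℝ) * t ≤ m)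
    {A : Finset (Cube n)} (hA : Percolates (distCube k n) r A) (o : Cube n) :
    o ∈ A ∨ r - m ≤ (#(nbhd k o ∩ A) : ℝ) ∨
      ∃ q ∈ (univ : Finset (Cube n)) ×ˢ Icc 1 k, ∃ J ⊆ sphere q.2 q.1, t ≤ #J ∧
        ∀ w ∈ J, r - m ≤ (#(nbhd k w ∩ A) : ℝ) := by
  by_cases h : ∀ v : Cube n,
      (#(nbhd k v ∩ univ.filter fun w => r - m ≤ (#(nbhd k w ∩ A) : ℝ)) : ℝ) < m
  · obtain ⟨i, hi⟩ := hA o
    have := closure_subset h i hi
    rw [mem_union, mem_filter] at this
    rcases this with h1 | h1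
    · exact Or.inl h1
    · exact Or.inr (Or.inl h1.2)
  · push Not at h
    obtain ⟨v, hv⟩ := h
    obtain ⟨j, hj, hj2⟩ := exists_sphere hk hm v _ hv
    refine Or.inr (Or.inr ⟨(v, j), mem_product.2 ⟨mem_univ _, hj⟩, _, inter_subset_left, hj2, ?_⟩)
    intro w hw
    exact (mem_filter.1 (mem_inter.1 hw).2).2

end Pool.Agent.Lib.MP_b06f47_pr
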