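import Pool.Agent.Lib.MP_b06f47_pr.Prob

/-! Hoeffding bounds for weighted sums and for families of sets. -/

open Finset

namespace Pool.Agent.Lib.MP_b06f47_pr

variable {V : Type*} [DecidableEq V]

lemma exp_le_chord {s x : ℝ} (h1 : -1 ≤ x) (h2 : x ≤ 1) :
    Real.exp (s * x) ≤ Real.cosh s + x * Real.sinh s := by
  have hc := convexOn_exp.2
  have ha : 0 ≤ (1 + x) / 2 := by linarith
  have hb : 0 ≤ (1 - x) / 2 := by linarith
  have hab : (1 + x) / 2 + (1 - x) / 2 = 1 := by ring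
  have h := hc (Set.mem_univ s) (Set.mem_univ (-s)) ha hb hab
  simp only [smul_eq_mul] at h
  have e : (1 + x) / 2 * s + (1 - x) / 2 * -s = s * x := by ring
  rw [e] at h
  rw [Real.cosh_eq, Real.sinh_eq]
  linarith

lemma bernoulli_mgf {p : ℝ} (hp0 : 0 ≤ p) (hp1 : p ≤ 1) (s : ℝ) :
    p * Real.exp (s * (1 - p)) + (1 - p) * Real.exp (s * (-p)) ≤ Real.exp (s ^ 2 / 2) := by
  have h1 := exp_le_chord (s := s) (x := 1 - p) (by linarith) (by linarith)
  have h2 := exp_le_chord (s := s) (x := -p) (by linarith) (by linarith)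
  calc p * Real.exp (s * (1 - p)) + (1 - p) * Real.exp (s * (-p))
      ≤ p * (Real.cosh s + (1 - p) * Real.sinh s) + (1 - p) * (Real.cosh s + -p * Real.sinh s) := by
        have : 0 ≤ 1 - p := by linarith
        gcongr
    _ = Real.cosh s := by ring
    _ ≤ Real.exp (s ^ 2 / 2) := Real.cosh_le_exp_half_sq s

/-- Hoeffding's inequality for weighted sums of independent Bernoulli variables. -/
lemma hoeffding {p : ℝ} (hp0 : 0 ≤ p) (hp1 : p ≤ 1) (s : Finset V) (c : V → ℝ) {G z : ℝ}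
    (hG : 0 < G) (hc : ∑ v ∈ s, c v ^ 2 ≤ G) (hz : 0 ≤ z) :
    Pr p s (fun A => z ≤ ∑ v ∈ A, c v - p * ∑ v ∈ s, c v) ≤ Real.exp (-(z ^ 2 / (2 * G))) := by
  set θ := z / G with hθ
  have hθ0 : 0 ≤ θ := by positivity
  set a : V → ℝ := fun v => Real.exp (θ * c v * (1 - p))
  set b : V → ℝ := fun v => Real.exp (θ * c v * (-p))
  have hprod : ∀ A ⊆ s, ∏ v ∈ s, (if v ∈ A then a v else b v)
      = Real.exp (θ * (∑ v ∈ A, c v - p * ∑ v ∈ s, c v)) := by
    intro A hA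
    have : ∀ v ∈ s, (if v ∈ A then a v else b v)
        = Real.exp (θ * ((if v ∈ A then c v else 0) - p * c v)) := by
      intro v _
      split_ifs
      · simp only [a]; congr 1; ring
      · simp only [b]; congr 1; ring
    rw [prod_congr rfl this, ← Real.exp_sum]
    congr 1
    rw [← mul_sum, sum_sub_distrib, ← mul_sum, ← sum_filter, filter_mem_eq_inter,
      inter_eq_right.2 hA]
  have hM : Pr p s (fun A => z ≤ ∑ v ∈ A, c v - p * ∑ v ∈ s, c v)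
      ≤ Ex p s (fun A => Real.exp (-(θ * z)) * ∏ v ∈ s, if v ∈ A then a v else b v) := by
    refine Pr_le_Ex hp0 hp1 (fun A hA => ?_) (fun A hA hE => ?_)
    · rw [hprod A hA]; positivity
    · rw [hprod A hA, ← Real.exp_add]
      apply Real.one_le_exp
      have := mul_le_mul_of_nonneg_left hE hθ0
      linarith
  refine hM.trans ?_
  rw [Ex_mul_left, Ex_prod]
  calc Real.exp (-(θ * z)) * ∏ v ∈ s, (p * a v + (1 - p) * b v)
      ≤ Real.exp (-(θ * z)) * ∏ v ∈ s, Real.exp ((θ * c v) ^ 2 / 2) := by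
        refine mul_le_mul_of_nonneg_left (prod_le_prod (fun v _ => ?_) fun v _ => ?_)
          (Real.exp_pos _).le
        · have : 0 ≤ 1 - p := by linarith
          simp only [a, b]
          positivity
        · exact bernoulli_mgf hp0 hp1 (θ * c v)
    _ = Real.exp (-(θ * z) + θ ^ 2 / 2 * ∑ v ∈ s, c v ^ 2) := by
        rw [← Real.exp_sum, ← Real.exp_add, mul_sum]
        congr 2
        exact sum_congr rfl fun v _ => by ring
    _ ≤ Real.exp (-(z ^ 2 / (2 * G))) := by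
        apply Real.exp_le_exp.2
        have h1 : θ ^ 2 / 2 * ∑ v ∈ s, c v ^ 2 ≤ θ ^ 2 / 2 * G := by gcongr
        have h2 : -(θ * z) + θ ^ 2 / 2 * G = -(z ^ 2 / (2 * G)) := by
          rw [hθ]; field_simp; ring
        linarith

/-- The lower-tail version. -/
lemma hoeffding' {p : ℝ} (hp0 : 0 ≤ p) (hp1 : p ≤ 1) (s : Finset V) (c : V → ℝ) {G z : ℝ}
    (hG : 0 < G) (hc : ∑ v ∈ s, c v ^ 2 ≤ G) (hz : 0 ≤ z) :
    Pr p s (fun A => ∑ v ∈ A, c v ≤ p * ∑ v ∈ s, c v - z) ≤ Real.exp (-(z ^ 2 / (2 * G))) := by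
  have h := hoeffding hp0 hp1 s (fun v => - c v) (G := G) hG (by simpa using hc) hz
  refine le_trans (le_of_eq (Pr_congr fun A _ => ?_)) h
  simp only [sum_neg_distrib]
  constructor <;> intro h <;> linarith

/-- Counting elements in a set. -/
lemma hoeffding_card_ge {p : ℝ} (hp0 : 0 ≤ p) (hp1 : p ≤ 1) {s t : Finset V} (ht : t ⊆ s)
    {G z : ℝ} (hG : 0 < G) (hc : (#t : ℝ) ≤ G) (hz : 0 ≤ z) :
    Pr p s (fun A => p * #t + z ≤ #(t ∩ A)) ≤ Real.exp (-(z ^ 2 / (2 * G))) := by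
  have h := hoeffding hp0 hp1 t (fun _ => 1) (G := G) hG (by simpa using hc) hz
  rw [← Pr_inter p ht] at h
  refine le_trans (le_of_eq (Pr_congr fun A _ => ?_)) h
  simp only [sum_const, nsmul_eq_mul, mul_one]
  rw [inter_comm]
  constructor <;> intro h <;> linarith

lemma hoeffding_card_le {p : ℝ} (hp0 : 0 ≤ p) (hp1 : p ≤ 1) {s t : Finset V} (ht : t ⊆ s)
    {G z : ℝ} (hG : 0 < G) (hc : (#t : ℝ) ≤ G) (hz : 0 ≤ z) :
    Pr p s (fun A => (#(t ∩ A) : ℝ) ≤ p * #t - z) ≤ Real.exp (-(z ^ 2 / (2 * G))) := by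
  have h := hoeffding' hp0 hp1 t (fun _ => 1) (G := G) hG (by simpa using hc) hz
  rw [← Pr_inter p ht] at h
  refine le_trans (le_of_eq (Pr_congr fun A _ => ?_)) h
  simp only [sum_const, nsmul_eq_mul, mul_one]
  rw [inter_comm]

section families

variable {ι : Type*}

/-- Number of members of the family `S i`, `i ∈ I`, containing `v`. -/
noncomputable def mult (I : Finset ι) (S : ι → Finset V) (v : V) : ℝ :=
  ∑ i ∈ I, if v ∈ S i then 1 else 0

lemma sum_mult (I : Finset ι) (S : ι → Finset V) (A : Finset V) :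
    ∑ v ∈ A, mult I S v = ∑ i ∈ I, (#(S i ∩ A) : ℝ) := by
  unfold mult
  rw [sum_comm]
  refine sum_congr rfl fun i _ => ?_
  rw [← sum_filter, filter_mem_eq_inter, inter_comm]
  simp

lemma sum_mult_sq (I : Finset ι) (S : ι → Finset V) {s : Finset V} (hS : ∀ i ∈ I, S i ⊆ s) :
    ∑ v ∈ s, mult I S v ^ 2 = ∑ i ∈ I, ∑ j ∈ I, (#(S i ∩ S j) : ℝ) := by
  have h1 : ∀ v ∈ s, mult I S v ^ 2
      = ∑ i ∈ I, ∑ j ∈ I, if v ∈ S i ∩ S j then (1 : ℝ) else 0 := by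
    intro v _
    rw [sq]
    unfold mult
    rw [sum_mul_sum]
    refine sum_congr rfl fun i _ => sum_congr rfl fun j _ => ?_
    simp only [mem_inter]
    by_cases hi : v ∈ S i <;> by_cases hj : v ∈ S j <;> simp [hi, hj]
  rw [sum_congr rfl h1, sum_comm]
  refine sum_congr rfl fun i hi => ?_
  rw [sum_comm]
  refine sum_congr rfl fun j _ => ?_
  rw [← sum_filter, filter_mem_eq_inter]
  have : s ∩ (S i ∩ S j) = S i ∩ S j :=
    inter_eq_right.2 (inter_subset_left.trans (hS i hi))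
  rw [this]
  simp

/-- If `#(S i ∩ A)` exceeds its mean by `y` for all `i ∈ I`. -/
lemma family_ge {p : ℝ} (hp0 : 0 ≤ p) (hp1 : p ≤ 1) {s : Finset V} (I : Finset ι)
    (S : ι → Finset V) (hS : ∀ i ∈ I, S i ⊆ s) {D y : ℝ} (hD : 0 < D) (hy : 0 ≤ y)
    (hI : I.Nonempty) (hov : ∀ i ∈ I, ∑ j ∈ I, (#(S i ∩ S j) : ℝ) ≤ D) :
    Pr p s (fun A => ∀ i ∈ I, p * #(S i) + y ≤ #(S i ∩ A))
      ≤ Real.exp (-(#I * (y ^ 2 / (2 * D)))) := by
  have hI' : (0 : ℝ) < #I := by exact_mod_cast hI.card_pos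
  have hsq : ∑ v ∈ s, mult I S v ^ 2 ≤ #I * D := by
    rw [sum_mult_sq I S hS]
    refine (sum_le_sum hov).trans ?_
    simp
  have h := hoeffding hp0 hp1 s (mult I S) (G := #I * D) (z := #I * y) (by positivity) hsq
    (by positivity)
  have hexp : (#I * y) ^ 2 / (2 * (#I * D)) = #I * (y ^ 2 / (2 * D)) := by
    field_simp
  rw [hexp] at h
  refine (Pr_mono hp0 hp1 fun A _ hA => ?_).trans h
  rw [sum_mult, sum_mult]
  have h2 : ∑ i ∈ I, (p * (#(S i) : ℝ) + y) ≤ ∑ i ∈ I, (#(S i ∩ A) : ℝ) := sum_le_sum hA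
  rw [sum_add_distrib, ← mul_sum, sum_const, nsmul_eq_mul] at h2
  have h3 : ∑ i ∈ I, (#(S i ∩ s) : ℝ) = ∑ i ∈ I, (#(S i) : ℝ) :=
    sum_congr rfl fun i hi => by rw [inter_eq_left.2 (hS i hi)]
  rw [h3]; linarith

lemma family_le {p : ℝ} (hp0 : 0 ≤ p) (hp1 : p ≤ 1) {s : Finset V} (I : Finset ι)
    (S : ι → Finset V) (hS : ∀ i ∈ I, S i ⊆ s) {D y : ℝ} (hD : 0 < D) (hy : 0 ≤ y)
    (hI : I.Nonempty) (hov : ∀ i ∈ I, ∑ j ∈ I, (#(S i ∩ S j) : ℝ) ≤ D) :
    Pr p s (fun A => ∀ i ∈ I, (#(S i ∩ A) : ℝ) ≤ p * #(S i) - y)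
      ≤ Real.exp (-(#I * (y ^ 2 / (2 * D)))) := by
  have hI' : (0 : ℝ) < #I := by exact_mod_cast hI.card_pos
  have hsq : ∑ v ∈ s, mult I S v ^ 2 ≤ #I * D := by
    rw [sum_mult_sq I S hS]
    refine (sum_le_sum hov).trans ?_
    simp
  have h := hoeffding' hp0 hp1 s (mult I S) (G := #I * D) (z := #I * y) (by positivity) hsq
    (by positivity)
  have hexp : (#I * y) ^ 2 / (2 * (#I * D)) = #I * (y ^ 2 / (2 * D)) := by
    field_simp
  rw [hexp] at h
  refine (Pr_mono hp0 hp1 fun A _ hA => ?_).trans h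
  rw [sum_mult, sum_mult]
  have h2 : ∑ i ∈ I, (#(S i ∩ A) : ℝ) ≤ ∑ i ∈ I, (p * (#(S i) : ℝ) - y) := sum_le_sum hA
  rw [sum_sub_distrib, ← mul_sum, sum_const, nsmul_eq_mul] at h2
  have h3 : ∑ i ∈ I, (#(S i ∩ s) : ℝ) = ∑ i ∈ I, (#(S i) : ℝ) :=
    sum_congr rfl fun i hi => by rw [inter_eq_left.2 (hS i hi)]
  rw [h3]; linarith

/-- If at least `t` members of a family satisfy a property, all the members of some subfamily of
size exactly `t` do: the corresponding union bound. -/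
lemma Pr_many_le {p : ℝ} (hp0 : 0 ≤ p) (hp1 : p ≤ 1) (s : Finset V) (I : Finset ι)
    (E : ι → Finset V → Prop) (t : ℕ) {b : ℝ} (hb0 : 0 ≤ b)
    (hb : ∀ J ⊆ I, #J = t → Pr p s (fun A => ∀ i ∈ J, E i A) ≤ b) (n : ℕ)
    (hn : #I ≤ n) :
    Pr p s (fun A => ∃ J ⊆ I, t ≤ #J ∧ ∀ i ∈ J, E i A) ≤ (n : ℝ) ^ t * b := by
  have h1 : Pr p s (fun A => ∃ J ⊆ I, t ≤ #J ∧ ∀ i ∈ J, E i A)
      ≤ Pr p s (fun A => ∃ J ∈ I.powersetCard t, ∀ i ∈ J, E i A) := by
    refine Pr_mono hp0 hp1 ?_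
    rintro A _ ⟨J, hJ, ht, hE⟩
    obtain ⟨K, hK, hKt⟩ := exists_subset_card_eq ht
    exact ⟨K, mem_powersetCard.2 ⟨hK.trans hJ, hKt⟩, fun i hi => hE i (hK hi)⟩
  refine h1.trans ((Pr_exists_le_of_le hp0 hp1 s _ _ (b := b) ?_).trans ?_)
  · intro J hJ
    rw [mem_powersetCard] at hJ
    exact hb J hJ.1 hJ.2
  · rw [card_powersetCard]
    have h2 : ((#I).choose t : ℝ) ≤ (n : ℝ) ^ t := by
      calc ((#I).choose t : ℝ) ≤ ((#I) ^ t : ℕ) := by
            exact_mod_cast Nat.choose_le_pow (#I) t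
        _ ≤ (n : ℝ) ^ t := by push_cast; gcongr
    gcongr

end families

end Pool.Agent.Lib.MP_b06f47_pr
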