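import Pool.Agent.Lib.MP_b06f47_pr.Det

/-! Lower bound for the critical probability. -/

open Finset

namespace Pool.Agent.Lib.MP_b06f47_pr

variable {k n : ℕ}

lemma sphere_card_le {j : ℕ} (hj : j ≤ k) (v : Cube n) : #(sphere j v) ≤ #(small n k) := by
  have h : sphere j v ⊆ (small n k).image (flip v) := by
    intro w hw
    rw [mem_image]
    exact ⟨diff v w, mem_small.2 (by rw [mem_sphere.1 hw]; exact hj), flip_diff v w⟩
  exact (card_le_card h).trans card_image_le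

lemma card_nbhd' (k : ℕ) (x : Cube n) : #(nbhd k x) = cubeDegree k n := card_nbhd k x

lemma lower_prob (hk : 1 ≤ k) {p m y D : ℝ} (hp0 : 0 ≤ p) (hp1 : p ≤ 1)
    {t : ℕ} (ht : 1 ≤ t) (hm : (k : ℝ) * t ≤ m) (hN : 0 < cubeDegree k n)
    (hy : (cubeDegree k n : ℝ) / 2 - m = p * cubeDegree k n + y) (hy0 : 0 ≤ y)
    (hD : 0 < D) (hD2 : (16 : ℝ) ^ k * #(small n k) ≤ D) :
    Pr p univ (Percolates (distCube k n) ((cubeDegree k n : ℝ) / 2)) ≤
      p + Real.exp (-(y ^ 2 / (2 * cubeDegree k n))) +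
      2 ^ n * k * ((#(small n k) : ℝ) ^ t * Real.exp (-(t * (y ^ 2 / (2 * D))))) := by
  set N : ℝ := (cubeDegree k n : ℝ) with hNdef
  have hNpos : 0 < N := by rw [hNdef]; exact_mod_cast hN
  set o : Cube n := fun _ => false
  have hnb : ∀ w : Cube n, (#(nbhd k w) : ℝ) = N := fun w => by rw [card_nbhd']
  have h1 : Pr p univ (Percolates (distCube k n) (N / 2)) ≤
      Pr p univ (fun A : Finset (Cube n) => o ∈ A ∨ (N / 2 - m ≤ (#(nbhd k o ∩ A) : ℝ) ∨
        ∃ q ∈ (univ : Finset (Cube n)) ×ˢ Icc 1 k, ∃ J ⊆ sphere q.2 q.1, t ≤ #J ∧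
          ∀ w ∈ J, N / 2 - m ≤ (#(nbhd k w ∩ A) : ℝ))) :=
    Pr_mono hp0 hp1 fun A _ hA => percolates_imp hk hm hA o
  refine h1.trans ((Pr_or_le hp0 hp1 _ _ _).trans ?_)
  rw [Pr_mem p (mem_univ o), add_assoc]
  refine add_le_add le_rfl ((Pr_or_le hp0 hp1 _ _ _).trans (add_le_add ?_ ?_))
  · have h2 := hoeffding_card_ge hp0 hp1 (subset_univ (nbhd k o)) (G := N) (z := y) hNpos
      (hnb o).le hy0
    refine le_trans (le_of_eq (Pr_congr fun A _ => ?_)) h2
    rw [hnb, hy]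
  · have h3 := Pr_exists_le_of_le hp0 hp1 univ ((univ : Finset (Cube n)) ×ˢ Icc 1 k)
      (fun q A => ∃ J ⊆ sphere q.2 q.1, t ≤ #J ∧ ∀ w ∈ J, N / 2 - m ≤ (#(nbhd k w ∩ A) : ℝ))
      (b := (#(small n k) : ℝ) ^ t * Real.exp (-(t * (y ^ 2 / (2 * D))))) ?_
    · refine h3.trans (le_of_eq ?_)
      rw [card_product, card_univ, Nat.card_Icc]
      simp
    · rintro ⟨v, j⟩ hq
      rw [mem_product, mem_Icc] at hq
      have hj : j ≤ k := hq.2.2
      refine Pr_many_le hp0 hp1 univ (sphere j v) (fun w A => N / 2 - m ≤ (#(nbhd k w ∩ A) : ℝ))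
        t (Real.exp_pos _).le ?_ _ (sphere_card_le hj v)
      intro J hJ hJt
      have hJne : J.Nonempty := card_pos.1 (by omega)
      have h4 := family_ge hp0 hp1 J (nbhd k) (fun _ _ => subset_univ _) hD hy0 hJne ?_
      · rw [hJt] at h4
        refine le_trans (le_of_eq (Pr_congr fun A _ => ?_)) h4
        refine forall₂_congr fun w _ => ?_
        rw [hnb, hy]
      · intro w hw
        refine le_trans ?_ hD2
        have h5 := overlap_sphere hj v w (hJ hw)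
        have h6 : ∑ w' ∈ J, #(nbhd k w ∩ nbhd k w') ≤
            ∑ w' ∈ sphere j v, #(nbhd k w ∩ nbhd k w') :=
          sum_le_sum_of_subset hJ
        exact_mod_cast h6.trans h5

/-- Polynomial lower bound for the degree. -/
noncomputable def kap (k : ℕ) : ℝ := 1 / (4 ^ k * k.factorial)

lemma kap_pos (k : ℕ) : 0 < kap k := by unfold kap; positivity

lemma kap_le_one (k : ℕ) : kap k ≤ 1 := by
  unfold kap
  rw [div_le_one (by positivity)]
  have h1 : (1 : ℝ) ≤ 4 ^ k := one_le_pow₀ (by norm_num)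
  have h2 : (1 : ℝ) ≤ k.factorial := by exact_mod_cast Nat.succ_le_of_lt (Nat.factorial_pos k)
  nlinarith

lemma choose_ge {k a n : ℕ} (hn : 4 * k ≤ n) (ha : n ≤ 2 * a) :
    kap k * (n : ℝ) ^ k ≤ a.choose k := by
  have h := Nat.pow_le_choose (α := ℝ) k a
  refine le_trans ?_ h
  unfold kap
  rw [div_mul_eq_mul_div, one_mul, div_le_div_iff₀ (by positivity) (by positivity)]
  have h1 : (n : ℝ) ≤ 4 * ((a + 1 - k : ℕ) : ℝ) := by
    have : n ≤ 4 * (a + 1 - k) := by omega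
    exact_mod_cast this
  have h2 : (n : ℝ) ^ k ≤ 4 ^ k * ((a + 1 - k : ℕ) : ℝ) ^ k := by
    rw [← mul_pow]; exact pow_le_pow_left₀ (by positivity) h1 k
  calc (n : ℝ) ^ k * k.factorial ≤ (4 ^ k * ((a + 1 - k : ℕ) : ℝ) ^ k) * k.factorial := by
        gcongr
    _ = ((a + 1 - k : ℕ) : ℝ) ^ k * (4 ^ k * k.factorial) := by ring

lemma degree_ge (hk : 1 ≤ k) (hn : 4 * k ≤ n) : kap k * (n : ℝ) ^ k ≤ cubeDegree k n := by
  refine (choose_ge (a := n) hn (by omega)).trans ?_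
  unfold cubeDegree
  exact_mod_cast single_le_sum (f := fun i => n.choose i) (fun _ _ => Nat.zero_le _)
    (mem_Icc.2 ⟨hk, le_rfl⟩)

lemma small_le (hk : 1 ≤ k) (hn : 1 ≤ n) : (#(small n k) : ℝ) ≤ 2 * cubeDegree k n := by
  have h := card_small_eq (n := n) k (fun _ => false)
  rw [card_nbhd'] at h
  have h2 : 1 ≤ cubeDegree k n := by
    unfold cubeDegree
    have : n.choose 1 ≤ ∑ i ∈ Icc 1 k, n.choose i :=
      single_le_sum (f := fun i => n.choose i) (fun _ _ => Nat.zero_le _)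
        (mem_Icc.2 ⟨le_rfl, hk⟩)
    rw [Nat.choose_one_right] at this
    omega
  have h3 : #(small n k) ≤ 2 * cubeDegree k n := by omega
  exact_mod_cast h3

end Pool.Agent.Lib.MP_b06f47_pr
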