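import Pool.Agent.Lib.MP_b06f47_pr.Lower

/-! Numerical part of the lower bound. -/

open Finset Filter Topology

namespace Pool.Agent.Lib.MP_b06f47_pr

/-- The scale `√(log n / n^k)`. -/
noncomputable def ee (k n : ℕ) : ℝ := Real.sqrt (Real.log n / (n : ℝ) ^ k)

lemma ee_nonneg (k n : ℕ) : 0 ≤ ee k n := Real.sqrt_nonneg _

lemma ee_sq {k n : ℕ} : ee k n ^ 2 = Real.log n / (n : ℝ) ^ k := by
  unfold ee
  rw [Real.sq_sqrt]
  have := Real.log_natCast_nonneg n
  positivity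

lemma tendsto_ee {k : ℕ} (hk : 1 ≤ k) : Tendsto (fun n : ℕ => ee k n) atTop (𝓝 0) := by
  have h1 : Tendsto (fun n : ℕ => Real.log n / (n : ℝ)) atTop (𝓝 0) :=
    (Real.isLittleO_log_id_atTop.tendsto_div_nhds_zero).comp tendsto_natCast_atTop_atTop
  have h2 : Tendsto (fun n : ℕ => Real.log n / (n : ℝ) ^ k) atTop (𝓝 0) := by
    refine squeeze_zero' (Eventually.of_forall fun n => ?_) ?_ h1
    · have := Real.log_natCast_nonneg n
      positivity
    · filter_upwards [eventually_ge_atTop 1] with n hn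
      have hn' : (1 : ℝ) ≤ n := by exact_mod_cast hn
      have h3 : (n : ℝ) ≤ (n : ℝ) ^ k := le_self_pow₀ hn' (by omega)
      have := Real.log_natCast_nonneg n
      gcongr
  have h3 := (Real.continuous_sqrt.tendsto 0).comp h2
  rw [Real.sqrt_zero] at h3
  exact h3

lemma one_le_log {n : ℕ} (hn : 3 ≤ n) : 1 ≤ Real.log n := by
  rw [Real.le_log_iff_exp_le (by positivity)]
  have h1 := Real.exp_one_lt_d9
  have h2 : (3 : ℝ) ≤ n := by exact_mod_cast hn
  linarith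

lemma ee_mul_pow_ge {k n : ℕ} (hk : 2 ≤ k) (hn : 3 ≤ n) : (n : ℝ) ≤ ee k n * (n : ℝ) ^ k := by
  have hL := one_le_log hn
  have hn' : (1 : ℝ) ≤ n := by exact_mod_cast (show 1 ≤ n by omega)
  have hpos : (0 : ℝ) < (n : ℝ) ^ k := by positivity
  apply le_of_sq_le_sq₀ _ (mul_nonneg (ee_nonneg _ _) hpos.le)
  rw [mul_pow, ee_sq]
  have h1 : Real.log n / (n : ℝ) ^ k * ((n : ℝ) ^ k) ^ 2 = Real.log n * (n : ℝ) ^ k := by
    field_simp
  rw [h1]
  calc (n : ℝ) ^ 2 ≤ (n : ℝ) ^ k := pow_le_pow_right₀ hn' hk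
    _ ≤ Real.log n * (n : ℝ) ^ k := le_mul_of_one_le_left hpos.le hL
where
  le_of_sq_le_sq₀ {a b : ℝ} (h : a ^ 2 ≤ b ^ 2) (hb : 0 ≤ b) : a ≤ b :=
    le_of_sq_le_sq h hb
  le_of_sq_le_sq {a b : ℝ} (h : a ^ 2 ≤ b ^ 2) (hb : 0 ≤ b) : a ≤ b := by
    by_contra hcon
    push Not at hcon
    nlinarith

lemma inv_pow_le_ee {k n : ℕ} (hn : 3 ≤ n) : 1 / (n : ℝ) ^ k ≤ ee k n := by
  have hL := one_le_log hn
  have hn' : (1 : ℝ) ≤ n := by exact_mod_cast (show 1 ≤ n by omega)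
  have hpos : (0 : ℝ) < (n : ℝ) ^ k := by positivity
  have hone : (1 : ℝ) ≤ (n : ℝ) ^ k := one_le_pow₀ hn'
  unfold ee
  apply Real.le_sqrt_of_sq_le
  rw [div_pow, one_pow, div_le_div_iff₀ (by positivity) hpos]
  calc 1 * (n : ℝ) ^ k ≤ (n : ℝ) ^ k * (n : ℝ) ^ k := by gcongr
    _ = 1 * ((n : ℝ) ^ k) ^ 2 := by ring
    _ ≤ Real.log n * ((n : ℝ) ^ k) ^ 2 := by gcongr

set_option maxHeartbeats 2000000 in
lemma lower_main {k : ℕ} (hk : 2 ≤ k) : ∃ C : ℝ, 0 < C ∧ ∀ᶠ n : ℕ in atTop,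
    0 < 1 / 2 - C * ee k n ∧
    Pr (1 / 2 - C * ee k n) univ
      (Percolates (distCube k n) ((cubeDegree k n : ℝ) / 2)) ≤ 1 / 2 := by
  have hκ := kap_pos k
  have hκ1 := kap_le_one k
  set κ := kap k with hκdef
  set Λ : ℝ := (k : ℝ) ^ 2 + 2 * k + 2 with hΛ
  have hk' : (2 : ℝ) ≤ k := by exact_mod_cast hk
  have hΛk : (k : ℝ) ≤ Λ := by rw [hΛ]; nlinarith
  have hΛ1 : 1 ≤ Λ := by linarith
  set C : ℝ := 16 ^ (k + 1) * Λ / κ with hC
  have h16 : (16 : ℝ) ≤ 16 ^ (k + 1) := le_self_pow₀ (by norm_num) (by omega)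
  have hCκ : C * κ = 16 ^ (k + 1) * Λ := by rw [hC]; field_simp
  have hC1 : 1 ≤ C := by
    have : 1 * κ ≤ C * κ := by rw [hCκ]; nlinarith
    exact le_of_mul_le_mul_right this hκ
  have hC2 : 2 ≤ C := by
    have : 2 * κ ≤ C * κ := by rw [hCκ]; nlinarith
    exact le_of_mul_le_mul_right this hκ
  have hCsq : 16 ^ (k + 1) * Λ ≤ C ^ 2 * κ := by
    rw [← hCκ, sq, mul_assoc]
    exact le_mul_of_one_le_left (by positivity) hC1
  refine ⟨C, by linarith, ?_⟩
  have hsmall : ∀ᶠ n : ℕ in atTop, C * ee k n < 1 / 4 := by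
    have h1 : Tendsto (fun n : ℕ => C * ee k n) atTop (𝓝 (C * 0)) :=
      (tendsto_ee (by omega)).const_mul C
    rw [mul_zero] at h1
    exact h1.eventually_lt_const (by norm_num)
  filter_upwards [hsmall, eventually_ge_atTop (4 * k + 3)] with n hn1 hn2
  set e := ee k n with he
  have he0 : 0 ≤ e := ee_nonneg k n
  have hn3 : 3 ≤ n := by omega
  have hL := one_le_log hn3
  set L := Real.log n with hLdef
  have hnpos : (0 : ℝ) < n := by exact_mod_cast (show 0 < n by omega)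
  have hpow : (0 : ℝ) < (n : ℝ) ^ k := by positivity
  have hesq : e ^ 2 = L / (n : ℝ) ^ k := ee_sq
  set N : ℝ := (cubeDegree k n : ℝ) with hN
  have hNge : κ * (n : ℝ) ^ k ≤ N := degree_ge (by omega) (by omega)
  have hNpos : 0 < N := lt_of_lt_of_le (by positivity) hNge
  have hNnat : 0 < cubeDegree k n := by
    have : (0 : ℝ) < (cubeDegree k n : ℝ) := hNpos
    exact_mod_cast this
  set S : ℝ := (#(small n k) : ℝ) with hS
  have hS2 : S ≤ 2 * N := small_le (by omega) (by omega)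
  have hS1 : 1 ≤ S := by
    have : 0 < #(small n k) := card_pos.2 ⟨∅, mem_small.2 (by simp)⟩
    rw [hS]; exact_mod_cast this
  have hSle : S ≤ (k + 1) * (n : ℝ) ^ k := by
    have := card_small_le (n := n) (by omega) k
    rw [hS]; exact_mod_cast this
  refine ⟨by linarith, ?_⟩
  -- the quantity `C² e² N`
  have hkey : 16 ^ (k + 1) * Λ * L ≤ C ^ 2 * e ^ 2 * N := by
    rw [hesq]
    calc 16 ^ (k + 1) * Λ * L ≤ (C ^ 2 * κ) * L := by gcongr
      _ = C ^ 2 * (L / (n : ℝ) ^ k) * (κ * (n : ℝ) ^ k) := by field_simp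
      _ ≤ C ^ 2 * (L / (n : ℝ) ^ k) * N := by gcongr
  have hm : (k : ℝ) * n ≤ C * e * N / 2 := by
    have h1 := ee_mul_pow_ge hk hn3
    calc (k : ℝ) * n ≤ (C * κ / 2) * n := by
          rw [hCκ]
          have : (k : ℝ) ≤ 16 ^ (k + 1) * Λ / 2 := by nlinarith
          gcongr
      _ ≤ (C * κ / 2) * (e * (n : ℝ) ^ k) := by gcongr
      _ = C * e * (κ * (n : ℝ) ^ k) / 2 := by ring
      _ ≤ C * e * N / 2 := by gcongr
  have hmain := lower_prob (k := k) (n := n) (p := 1 / 2 - C * e) (m := C * e * N / 2)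
    (y := C * e * N / 2) (D := 16 ^ k * S) (t := n) (by omega) (by linarith)
    (by nlinarith) (by omega) hm hNnat (by rw [← hN]; ring) (by positivity) (by positivity)
    (by rw [hS])
  rw [← hN, ← hS] at hmain
  refine hmain.trans ?_
  have hexpk : Real.exp (-(k * L)) = 1 / (n : ℝ) ^ k := by
    rw [Real.exp_neg, Real.exp_nat_mul, hLdef, Real.exp_log hnpos, one_div]
  have t2 : Real.exp (-((C * e * N / 2) ^ 2 / (2 * N))) ≤ 1 / (n : ℝ) ^ k := by
    rw [← hexpk]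
    apply Real.exp_le_exp.2
    rw [neg_le_neg_iff]
    have h1 : (C * e * N / 2) ^ 2 / (2 * N) = C ^ 2 * e ^ 2 * N / 8 := by field_simp; ring
    rw [h1]
    have : (k : ℝ) * L ≤ 16 ^ (k + 1) * Λ * L / 8 := by
      have h2 : (k : ℝ) ≤ 16 ^ (k + 1) * Λ / 8 := by nlinarith
      calc (k : ℝ) * L ≤ (16 ^ (k + 1) * Λ / 8) * L := by gcongr
        _ = _ := by ring
    linarith
  have hy2 : Λ * L ≤ (C * e * N / 2) ^ 2 / (2 * (16 ^ k * S)) := by
    rw [le_div_iff₀ (by positivity)]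
    have h1 : Λ * L * (2 * (16 ^ k * S)) ≤ Λ * L * (2 * (16 ^ k * (2 * N))) := by gcongr
    have h2 : Λ * L * (2 * (16 ^ k * (2 * N))) = (16 ^ (k + 1) * Λ * L) * N / 4 := by ring
    have h3 : (C * e * N / 2) ^ 2 = (C ^ 2 * e ^ 2 * N) * N / 4 := by ring
    rw [h3]
    calc Λ * L * (2 * (16 ^ k * S)) ≤ (16 ^ (k + 1) * Λ * L) * N / 4 := by rw [← h2]; exact h1
      _ ≤ (C ^ 2 * e ^ 2 * N) * N / 4 := by gcongr
  have t3 : 2 ^ n * k * (S ^ n * Real.exp (-(n * ((C * e * N / 2) ^ 2 / (2 * (16 ^ k * S))))))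
      ≤ 1 / (n : ℝ) ^ k := by
    rw [← hexpk]
    have a1 : (2 : ℝ) ^ n ≤ Real.exp n := by
      have : (2 : ℝ) ≤ Real.exp 1 := by
        have := Real.add_one_le_exp (1 : ℝ); linarith
      calc (2 : ℝ) ^ n ≤ Real.exp 1 ^ n := by gcongr
        _ = Real.exp n := by rw [← Real.exp_nat_mul, mul_one]
    have a2 : (k : ℝ) ≤ (k : ℝ) ^ n := le_self_pow₀ (by linarith) (by omega)
    have a3 : S ^ n ≤ ((k + 1) * (n : ℝ) ^ k) ^ n := by gcongr
    have a4 : ((n : ℝ) ^ k) ^ n = Real.exp (n * (k * L)) := by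
      rw [Real.exp_nat_mul, Real.exp_nat_mul, hLdef, Real.exp_log hnpos]
    have a5 : ((k : ℝ) * (k + 1)) ^ n ≤ Real.exp (n * (k * (k + 1))) := by
      rw [Real.exp_nat_mul]
      have : (k : ℝ) * (k + 1) ≤ Real.exp (k * (k + 1)) := by
        have := Real.add_one_le_exp ((k : ℝ) * (k + 1)); linarith
      gcongr
    calc 2 ^ n * k * (S ^ n * Real.exp (-(n * ((C * e * N / 2) ^ 2 / (2 * (16 ^ k * S))))))
        ≤ Real.exp n * (k : ℝ) ^ n * (((k + 1) * (n : ℝ) ^ k) ^ n *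
            Real.exp (-(n * (Λ * L)))) := by gcongr
      _ = Real.exp n * (((k : ℝ) * (k + 1)) ^ n) * ((n : ℝ) ^ k) ^ n *
            Real.exp (-(n * (Λ * L))) := by
          rw [mul_pow, mul_pow]; ring
      _ ≤ Real.exp n * Real.exp (n * (k * (k + 1))) * Real.exp (n * (k * L)) *
            Real.exp (-(n * (Λ * L))) := by
          rw [a4]; gcongr
      _ = Real.exp (n * (1 + k * (k + 1) + k * L - Λ * L)) := by
          rw [← Real.exp_add, ← Real.exp_add, ← Real.exp_add]; congr 1; ring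
      _ ≤ Real.exp (-(k * L)) := by
          apply Real.exp_le_exp.2
          have b1 : 1 + (k : ℝ) * (k + 1) + k * L - Λ * L ≤ -L := by
            have : (k : ℝ) ^ 2 + k + 1 ≤ ((k : ℝ) ^ 2 + k + 1) * L :=
              le_mul_of_one_le_right (by positivity) hL
            rw [hΛ]; nlinarith
          have b2 : (k : ℝ) ≤ n := by exact_mod_cast (show k ≤ n by omega)
          calc (n : ℝ) * (1 + k * (k + 1) + k * L - Λ * L) ≤ n * (-L) := by gcongr
            _ = -(n * L) := by ring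
            _ ≤ -(k * L) := by
                rw [neg_le_neg_iff]; gcongr
  have hinv := inv_pow_le_ee (k := k) hn3
  rw [← he] at hinv
  have hfin : 2 * e ≤ C * e := by gcongr
  linarith

end Pool.Agent.Lib.MP_b06f47_pr
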