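import Mathlib

/-! Elementary product-Bernoulli probability on the subsets of a finite set. -/

open Finset

namespace Pool.Agent.Lib.MP_b06f47_pr

variable {V : Type*} [DecidableEq V]

/-- Expectation of `f A` when every element of `s` is put in `A` independently with
probability `p`. -/
noncomputable def Ex (p : ℝ) (s : Finset V) (f : Finset V → ℝ) : ℝ :=
  ∑ A ∈ s.powerset, p ^ #A * (1 - p) ^ #(s \ A) * f A

lemma Ex_empty (p : ℝ) (f : Finset V → ℝ) : Ex p ∅ f = f ∅ := by simp [Ex]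

lemma Ex_insert (p : ℝ) {a : V} {s : Finset V} (ha : a ∉ s) (f : Finset V → ℝ) :
    Ex p (insert a s) f = p * Ex p s (fun A => f (insert a A)) + (1 - p) * Ex p s f := by
  unfold Ex
  rw [sum_powerset_insert ha, add_comm, mul_sum, mul_sum]
  congr 1
  · refine sum_congr rfl fun A hA => ?_
    have hA' := mem_powerset.1 hA
    have haA : a ∉ A := fun h => ha (hA' h)
    rw [card_insert_of_notMem haA]
    have : insert a s \ insert a A = s \ A := by
      ext x; simp only [mem_sdiff, mem_insert, not_or]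
      constructor
      · rintro ⟨h1 | h1, h2, h3⟩
        · exact absurd h1 h2
        · exact ⟨h1, h3⟩
      · rintro ⟨h1, h2⟩
        exact ⟨Or.inr h1, fun h => ha (h ▸ h1), h2⟩
    rw [this]; ring
  · refine sum_congr rfl fun A hA => ?_
    have hA' := mem_powerset.1 hA
    have haA : a ∉ A := fun h => ha (hA' h)
    have : insert a s \ A = insert a (s \ A) := by
      ext x; simp only [mem_sdiff, mem_insert]
      constructor
      · rintro ⟨h1 | h1, h2⟩
        · exact Or.inl h1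
        · exact Or.inr ⟨h1, h2⟩
      · rintro (h1 | ⟨h1, h2⟩)
        · exact ⟨Or.inl h1, h1 ▸ haA⟩
        · exact ⟨Or.inr h1, h2⟩
    rw [this, card_insert_of_notMem (by simp [ha])]; ring

lemma Ex_congr {p : ℝ} {s : Finset V} {f g : Finset V → ℝ} (h : ∀ A ⊆ s, f A = g A) :
    Ex p s f = Ex p s g := by
  unfold Ex
  exact sum_congr rfl fun A hA => by rw [h A (mem_powerset.1 hA)]

lemma Ex_add (p : ℝ) (s : Finset V) (f g : Finset V → ℝ) :
    Ex p s (fun A => f A + g A) = Ex p s f + Ex p s g := by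
  unfold Ex; rw [← sum_add_distrib]; exact sum_congr rfl fun A _ => by ring

lemma Ex_mul_left (p : ℝ) (s : Finset V) (c : ℝ) (f : Finset V → ℝ) :
    Ex p s (fun A => c * f A) = c * Ex p s f := by
  unfold Ex; rw [mul_sum]; exact sum_congr rfl fun A _ => by ring

lemma Ex_mul_right (p : ℝ) (s : Finset V) (c : ℝ) (f : Finset V → ℝ) :
    Ex p s (fun A => f A * c) = Ex p s f * c := by
  unfold Ex; rw [sum_mul]; exact sum_congr rfl fun A _ => by ring

lemma Ex_const (p : ℝ) (s : Finset V) (c : ℝ) : Ex p s (fun _ => c) = c := by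
  induction s using Finset.induction_on with
  | empty => simp [Ex_empty]
  | insert a s ha ih => rw [Ex_insert p ha, ih]; ring

lemma Ex_mono {p : ℝ} (hp0 : 0 ≤ p) (hp1 : p ≤ 1) {s : Finset V} {f g : Finset V → ℝ}
    (h : ∀ A ⊆ s, f A ≤ g A) : Ex p s f ≤ Ex p s g := by
  unfold Ex
  refine sum_le_sum fun A hA => ?_
  have h1 : 0 ≤ 1 - p := by linarith
  exact mul_le_mul_of_nonneg_left (h A (mem_powerset.1 hA)) (by positivity)

lemma Ex_nonneg {p : ℝ} (hp0 : 0 ≤ p) (hp1 : p ≤ 1) {s : Finset V} {f : Finset V → ℝ}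
    (h : ∀ A ⊆ s, 0 ≤ f A) : 0 ≤ Ex p s f := by
  have := Ex_mono hp0 hp1 (s := s) (f := fun _ => 0) (g := f) h
  rwa [Ex_const] at this

lemma Ex_union (p : ℝ) {s t : Finset V} (hst : Disjoint s t) (f : Finset V → ℝ) :
    Ex p (s ∪ t) f = Ex p s (fun A => Ex p t (fun B => f (A ∪ B))) := by
  induction s using Finset.induction_on generalizing f with
  | empty => simp [Ex_empty]
  | insert a s ha ih =>
    rw [disjoint_insert_left] at hst
    rw [insert_union, Ex_insert p (by simp [ha, hst.1]), Ex_insert p ha, ih hst.2, ih hst.2]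
    simp only [insert_union]

/-- Marginalisation: a function of `A ∩ t` only sees the coordinates in `t`. -/
lemma Ex_inter (p : ℝ) {s t : Finset V} (hts : t ⊆ s) (f : Finset V → ℝ) :
    Ex p s (fun A => f (A ∩ t)) = Ex p t f := by
  have h : s = (s \ t) ∪ t := by rw [sdiff_union_of_subset hts]
  conv_lhs => rw [h]
  rw [Ex_union p sdiff_disjoint]
  have : ∀ A ⊆ s \ t, Ex p t (fun B => f ((A ∪ B) ∩ t)) = Ex p t f := by
    intro A hA
    refine Ex_congr fun B hB => ?_
    congr 1
    rw [union_inter_distrib_right, inter_eq_left.2 hB]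
    have : A ∩ t = ∅ := by
      rw [← disjoint_iff_inter_eq_empty]
      exact disjoint_of_subset_left hA sdiff_disjoint
    rw [this, empty_union]
  rw [Ex_congr this, Ex_const]

/-- Independence of disjoint blocks, two blocks. -/
lemma Ex_indep (p : ℝ) {s t u : Finset V} (hts : t ⊆ s) (hus : u ⊆ s) (htu : Disjoint t u)
    (f g : Finset V → ℝ) :
    Ex p s (fun A => f (A ∩ t) * g (A ∩ u)) = Ex p t f * Ex p u g := by
  have h1 : Ex p s (fun A => f (A ∩ t) * g (A ∩ u))
      = Ex p (t ∪ u) (fun A => f (A ∩ t) * g (A ∩ u)) := by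
    rw [← Ex_inter p (union_subset hts hus) (fun A => f (A ∩ t) * g (A ∩ u))]
    refine Ex_congr fun A _ => ?_
    rw [inter_assoc, inter_assoc, inter_eq_right.2 (subset_union_left),
      inter_eq_right.2 (subset_union_right)]
  rw [h1, Ex_union p htu]
  have h2 : ∀ A ⊆ t, Ex p u (fun B => f ((A ∪ B) ∩ t) * g ((A ∪ B) ∩ u)) = f A * Ex p u g := by
    intro A hA
    rw [← Ex_mul_left]
    refine Ex_congr fun B hB => ?_
    have e1 : (A ∪ B) ∩ t = A := by
      rw [union_inter_distrib_right, inter_eq_left.2 hA]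
      have : B ∩ t = ∅ := by
        rw [← disjoint_iff_inter_eq_empty]
        exact (disjoint_of_subset_right hB htu).symm
      rw [this, union_empty]
    have e2 : (A ∪ B) ∩ u = B := by
      rw [union_inter_distrib_right, inter_eq_left.2 hB]
      have : A ∩ u = ∅ := by
        rw [← disjoint_iff_inter_eq_empty]
        exact disjoint_of_subset_left hA htu
      rw [this, empty_union]
    rw [e1, e2]
  rw [Ex_congr h2, Ex_mul_right]

lemma Ex_prod (p : ℝ) (s : Finset V) (a b : V → ℝ) :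
    Ex p s (fun A => ∏ v ∈ s, if v ∈ A then a v else b v) = ∏ v ∈ s, (p * a v + (1 - p) * b v) := by
  induction s using Finset.induction_on with
  | empty => simp [Ex_empty]
  | insert x s hx ih =>
    rw [Ex_insert p hx, prod_insert hx, ← ih]
    have h1 : Ex p s (fun A => ∏ v ∈ insert x s, if v ∈ insert x A then a v else b v)
        = a x * Ex p s (fun A => ∏ v ∈ s, if v ∈ A then a v else b v) := by
      rw [← Ex_mul_left]
      refine Ex_congr fun A _ => ?_
      rw [prod_insert hx, if_pos (mem_insert_self x A)]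
      congr 1
      refine prod_congr rfl fun v hv => ?_
      have : v ≠ x := fun h => hx (h ▸ hv)
      simp [this]
    have h2 : Ex p s (fun A => ∏ v ∈ insert x s, if v ∈ A then a v else b v)
        = b x * Ex p s (fun A => ∏ v ∈ s, if v ∈ A then a v else b v) := by
      rw [← Ex_mul_left]
      refine Ex_congr fun A hA => ?_
      rw [prod_insert hx, if_neg (fun h => hx (hA h))]
    rw [h1, h2]; ring

/-- Monotonicity in `p` for increasing functions. -/
lemma Ex_mono_p {p q : ℝ} (hp0 : 0 ≤ p) (hpq : p ≤ q) (hq1 : q ≤ 1) (s : Finset V)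
    {f : Finset V → ℝ} (hf : ∀ A B, A ⊆ B → f A ≤ f B) : Ex p s f ≤ Ex q s f := by
  induction s using Finset.induction_on generalizing f with
  | empty => simp [Ex_empty]
  | insert x s hx ih =>
    rw [Ex_insert p hx, Ex_insert q hx]
    have h1 := ih (f := fun A => f (insert x A)) fun A B h => hf _ _ (insert_subset_insert x h)
    have h2 := ih (f := f) hf
    have h3 : Ex q s f ≤ Ex q s (fun A => f (insert x A)) :=
      Ex_mono (hp0.trans hpq) hq1 fun A _ => hf _ _ (subset_insert x A)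
    nlinarith

open Classical in
/-- Indicator of a proposition, as a real number. -/
noncomputable def ind (P : Prop) : ℝ := if P then 1 else 0

lemma ind_pos {P : Prop} (h : P) : ind P = 1 := if_pos h
lemma ind_neg {P : Prop} (h : ¬ P) : ind P = 0 := if_neg h
lemma ind_nonneg (P : Prop) : 0 ≤ ind P := by
  by_cases h : P
  · rw [ind_pos h]; norm_num
  · rw [ind_neg h]
lemma ind_le_one (P : Prop) : ind P ≤ 1 := by
  by_cases h : P
  · rw [ind_pos h]
  · rw [ind_neg h]; norm_num
lemma ind_mono {P Q : Prop} (h : P → Q) : ind P ≤ ind Q := by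
  by_cases hP : P
  · rw [ind_pos hP, ind_pos (h hP)]
  · rw [ind_neg hP]; exact ind_nonneg Q
lemma ind_congr {P Q : Prop} (h : P ↔ Q) : ind P = ind Q := by rw [propext h]
lemma ind_mul (P Q : Prop) : ind P * ind Q = ind (P ∧ Q) := by
  by_cases hP : P
  · rw [ind_pos hP, one_mul]; exact ind_congr (by simp [hP])
  · rw [ind_neg hP, zero_mul, ind_neg (fun h => hP h.1)]
lemma ind_add_not (P : Prop) : ind P + ind (¬ P) = 1 := by
  by_cases hP : P
  · rw [ind_pos hP, ind_neg (not_not.2 hP)]; norm_num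
  · rw [ind_neg hP, ind_pos hP]; norm_num

/-- Probability of an event. -/
noncomputable def Pr (p : ℝ) (s : Finset V) (E : Finset V → Prop) : ℝ :=
  Ex p s (fun A => ind (E A))

lemma Pr_nonneg {p : ℝ} (hp0 : 0 ≤ p) (hp1 : p ≤ 1) (s : Finset V) (E : Finset V → Prop) :
    0 ≤ Pr p s E := Ex_nonneg hp0 hp1 fun A _ => ind_nonneg _

lemma Pr_le_one {p : ℝ} (hp0 : 0 ≤ p) (hp1 : p ≤ 1) (s : Finset V) (E : Finset V → Prop) :
    Pr p s E ≤ 1 := by
  have : Pr p s E ≤ Ex p s (fun _ => 1) := Ex_mono hp0 hp1 fun A _ => ind_le_one _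
  rwa [Ex_const] at this

lemma Pr_mono {p : ℝ} (hp0 : 0 ≤ p) (hp1 : p ≤ 1) {s : Finset V} {E F : Finset V → Prop}
    (h : ∀ A ⊆ s, E A → F A) : Pr p s E ≤ Pr p s F :=
  Ex_mono hp0 hp1 fun A hA => ind_mono (h A hA)

lemma Pr_congr {p : ℝ} {s : Finset V} {E F : Finset V → Prop}
    (h : ∀ A ⊆ s, E A ↔ F A) : Pr p s E = Pr p s F :=
  Ex_congr fun A hA => ind_congr (h A hA)

lemma Pr_not (p : ℝ) (s : Finset V) (E : Finset V → Prop) :
    Pr p s (fun A => ¬ E A) = 1 - Pr p s E := by
  have h := Ex_add p s (fun A => ind (E A)) (fun A => ind (¬ E A))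
  simp only [ind_add_not, Ex_const] at h
  unfold Pr
  linarith

lemma Pr_or_le {p : ℝ} (hp0 : 0 ≤ p) (hp1 : p ≤ 1) (s : Finset V) (E F : Finset V → Prop) :
    Pr p s (fun A => E A ∨ F A) ≤ Pr p s E + Pr p s F := by
  unfold Pr
  rw [← Ex_add]
  refine Ex_mono hp0 hp1 fun A _ => ?_
  by_cases hE : E A
  · rw [ind_pos (Or.inl hE), ind_pos hE]; linarith [ind_nonneg (F A)]
  · rw [ind_congr (show (E A ∨ F A) ↔ F A by simp [hE])]; linarith [ind_nonneg (E A)]

lemma Pr_false (p : ℝ) (s : Finset V) : Pr p s (fun _ => False) = 0 := by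
  unfold Pr
  simp [ind_neg not_false, Ex_const]

lemma Pr_true (p : ℝ) (s : Finset V) : Pr p s (fun _ => True) = 1 := by
  unfold Pr
  simp [ind_pos trivial, Ex_const]

lemma Pr_exists_le {p : ℝ} (hp0 : 0 ≤ p) (hp1 : p ≤ 1) (s : Finset V) {ι : Type*}
    (I : Finset ι) (E : ι → Finset V → Prop) :
    Pr p s (fun A => ∃ i ∈ I, E i A) ≤ ∑ i ∈ I, Pr p s (E i) := by
  classical
  induction I using Finset.induction_on with
  | empty =>
    rw [sum_empty, ← Pr_false p s]
    exact Pr_mono hp0 hp1 fun A _ h => by simp at h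
  | insert i I hi ih =>
    rw [sum_insert hi]
    refine (Pr_mono hp0 hp1 (F := fun A => E i A ∨ ∃ j ∈ I, E j A) ?_).trans
      ((Pr_or_le hp0 hp1 s _ _).trans (by linarith))
    rintro A _ ⟨j, hj, hE⟩
    rcases mem_insert.1 hj with rfl | hj
    · exact Or.inl hE
    · exact Or.inr ⟨j, hj, hE⟩

lemma Pr_exists_le_of_le {p : ℝ} (hp0 : 0 ≤ p) (hp1 : p ≤ 1) (s : Finset V) {ι : Type*}
    (I : Finset ι) (E : ι → Finset V → Prop) {b : ℝ} (hb : ∀ i ∈ I, Pr p s (E i) ≤ b) :
    Pr p s (fun A => ∃ i ∈ I, E i A) ≤ #I * b := by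
  refine (Pr_exists_le hp0 hp1 s I E).trans ?_
  refine (sum_le_sum hb).trans ?_
  simp

/-- Markov inequality. -/
lemma Pr_le_Ex {p : ℝ} (hp0 : 0 ≤ p) (hp1 : p ≤ 1) {s : Finset V} {E : Finset V → Prop}
    {f : Finset V → ℝ} (h0 : ∀ A ⊆ s, 0 ≤ f A) (h : ∀ A ⊆ s, E A → 1 ≤ f A) :
    Pr p s E ≤ Ex p s f := by
  refine Ex_mono hp0 hp1 fun A hA => ?_
  by_cases hE : E A
  · rw [ind_pos hE]; exact h A hA hE
  · rw [ind_neg hE]; exact h0 A hA

lemma Pr_inter (p : ℝ) {s t : Finset V} (hts : t ⊆ s) (E : Finset V → Prop) :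
    Pr p s (fun A => E (A ∩ t)) = Pr p t E :=
  Ex_inter p hts (fun A => ind (E A))

lemma Pr_mem (p : ℝ) {s : Finset V} {v : V} (hv : v ∈ s) : Pr p s (fun A => v ∈ A) = p := by
  have h1 : Pr p s (fun A => v ∈ A) = Pr p s (fun A => v ∈ A ∩ {v}) :=
    Pr_congr fun A _ => by simp
  rw [h1, Pr_inter p (singleton_subset_iff.2 hv) (fun A => v ∈ A)]
  unfold Pr
  have : ({v} : Finset V) = insert v ∅ := rfl
  rw [this, Ex_insert p (notMem_empty v), Ex_empty, Ex_empty, ind_pos (mem_insert_self v ∅),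
    ind_neg (notMem_empty v)]
  ring

/-- Independence of two events on disjoint blocks. -/
lemma Pr_and_indep (p : ℝ) {s t u : Finset V} (hts : t ⊆ s) (hus : u ⊆ s) (htu : Disjoint t u)
    (E F : Finset V → Prop) :
    Pr p s (fun A => E (A ∩ t) ∧ F (A ∩ u)) = Pr p t E * Pr p u F := by
  unfold Pr
  rw [← Ex_indep p hts hus htu]
  exact Ex_congr fun A _ => (ind_mul _ _).symm

/-- Independence for events on pairwise disjoint blocks. -/
lemma Pr_forall_indep (p : ℝ) (s : Finset V) {ι : Type*} [DecidableEq ι]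
    (I : Finset ι) (Q : ι → Finset V) (hQ : ∀ i ∈ I, Q i ⊆ s)
    (hdisj : ∀ i ∈ I, ∀ j ∈ I, i ≠ j → Disjoint (Q i) (Q j)) (E : ι → Finset V → Prop) :
    Pr p s (fun A => ∀ i ∈ I, E i (A ∩ Q i)) = ∏ i ∈ I, Pr p (Q i) (E i) := by
  induction I using Finset.induction_on with
  | empty =>
    rw [prod_empty, ← Pr_true p s]
    exact Pr_congr fun A _ => by simp
  | insert i I hi ih =>
    have ih' := ih (fun j hj => hQ j (mem_insert_of_mem hj))
      (fun j hj l hl => hdisj j (mem_insert_of_mem hj) l (mem_insert_of_mem hl))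
    rw [prod_insert hi, ← ih']
    set u : Finset V := I.biUnion Q with hu
    have hus : u ⊆ s := by
      rw [hu, biUnion_subset]; exact fun j hj => hQ j (mem_insert_of_mem hj)
    have hdu : Disjoint (Q i) u := by
      rw [hu, disjoint_biUnion_right]
      intro j hj
      exact hdisj i (mem_insert_self i I) j (mem_insert_of_mem hj) (fun h => hi (h ▸ hj))
    have hQu : ∀ A : Finset V, ∀ j ∈ I, A ∩ u ∩ Q j = A ∩ Q j := by
      intro A j hj
      rw [inter_assoc, inter_eq_right.2 (subset_biUnion_of_mem Q hj)]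
    have hiff : ∀ A : Finset V, (∀ j ∈ I, E j (A ∩ u ∩ Q j)) ↔ ∀ j ∈ I, E j (A ∩ Q j) := by
      intro A
      constructor
      · intro h j hj; rw [← hQu A j hj]; exact h j hj
      · intro h j hj; rw [hQu A j hj]; exact h j hj
    have key := Pr_and_indep p (hQ i (mem_insert_self i I)) hus hdu (E i)
      (fun A => ∀ j ∈ I, E j (A ∩ Q j))
    have e1 : Pr p s (fun A => ∀ j ∈ insert i I, E j (A ∩ Q j))
        = Pr p s (fun A => E i (A ∩ Q i) ∧ ∀ j ∈ I, E j (A ∩ u ∩ Q j)) := by
      refine Pr_congr fun A _ => ?_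
      rw [hiff, forall_mem_insert]
    have e2 : Pr p u (fun A => ∀ j ∈ I, E j (A ∩ Q j))
        = Pr p s (fun A => ∀ j ∈ I, E j (A ∩ Q j)) := by
      rw [← Pr_inter p hus (fun A => ∀ j ∈ I, E j (A ∩ Q j))]
      exact Pr_congr fun A _ => hiff A
    rw [e1, key, e2]

lemma Pr_mono_p {p q : ℝ} (hp0 : 0 ≤ p) (hpq : p ≤ q) (hq1 : q ≤ 1) (s : Finset V)
    {E : Finset V → Prop} (hE : ∀ A B, A ⊆ B → E A → E B) : Pr p s E ≤ Pr q s E :=
  Ex_mono_p hp0 hpq hq1 s fun A B h => ind_mono (hE A B h)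

end Pool.Agent.Lib.MP_b06f47_pr
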