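import Pool.Agent.Lib.MP_b06f47_pr.Lower

/-! Upper bound for the critical probability: the probabilistic part. -/

open Finset

namespace Pool.Agent.Lib.MP_b06f47_pr

variable {k n : ℕ}

lemma card_shared {v : Cube n} {M : ℕ} (hk : 1 ≤ k) (hM : M ≤ n) {W : Finset (Fin n)}
    (hW : W ∈ tops n M k) :
    (#(shared v M k W) : ℝ) = cubeDegree k n - (n - M).choose k := by
  have h := card_sdiff_add_card_eq_card (priv_subset_nbhd (v := v) hk hW)
  rw [card_priv hM hW, card_nbhd'] at h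
  have h2 : (#(nbhd k (flip v W) \ priv v M k W) : ℝ) + ((n - M).choose k : ℝ)
      = cubeDegree k n := by exact_mod_cast h
  unfold shared
  linarith

lemma card_nbhd_inter {v : Cube n} {M : ℕ} (hk : 1 ≤ k) {W : Finset (Fin n)}
    (hW : W ∈ tops n M k) (A : Finset (Cube n)) :
    (#(nbhd k (flip v W) ∩ A) : ℝ) = #(priv v M k W ∩ A) + #(shared v M k W ∩ A) := by
  have h : nbhd k (flip v W) ∩ A = (priv v M k W ∩ A) ∪ (shared v M k W ∩ A) := by
    rw [← union_inter_distrib_right, shared, union_sdiff_of_subset (priv_subset_nbhd hk hW)]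
  have hd : Disjoint (priv v M k W ∩ A) (shared v M k W ∩ A) := by
    refine disjoint_of_subset_left inter_subset_left
      (disjoint_of_subset_right inter_subset_left ?_)
    exact disjoint_sdiff
  rw [h, card_union_of_disjoint hd]
  push_cast
  ring

/-- Deterministic part: outside three bad events, `v` is infected after two steps. -/
lemma infected_two {M : ℕ} (hk : 1 ≤ k) (hM : M ≤ n) (v : Cube n) (A : Finset (Cube n))
    {e x y z : ℝ} {t L : ℕ}
    (hy : e * (cubeDegree k n - (n - M).choose k) + x ≤ y)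
    (hL : e * cubeDegree k n + z ≤ L)
    (h1 : ¬ ((#(nbhd k v ∩ A) : ℝ) ≤ (1 / 2 - e) * #(nbhd k v) - z))
    (h2 : ¬ ∃ J ⊆ tops n M k, t ≤ #J ∧ ∀ W ∈ J,
      (#(shared v M k W ∩ A) : ℝ) ≤ (1 / 2 - e) * #(shared v M k W) - x)
    (h3 : ¬ ∃ U ∈ powersetCard (#(tops n M k) - (t + L)) (tops n M k), ∀ W ∈ U,
      (flip v W ∈ A ∨ (#(priv v M k W ∩ A) : ℝ) < ((n - M).choose k : ℝ) / 2 + y)) :
    v ∈ (bootStep (distCube k n) ((cubeDegree k n : ℝ) / 2))^[2] A := by
  classical
  set N : ℝ := (cubeDegree k n : ℝ) with hN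
  set r : ℝ := N / 2 with hr
  set A1 := bootStep (distCube k n) r A with hA1
  set T := tops n M k with hT
  set Bd : Finset (Finset (Fin n)) := T.filter fun W =>
    (#(shared v M k W ∩ A) : ℝ) ≤ (1 / 2 - e) * #(shared v M k W) - x with hBd
  set I : Finset (Finset (Fin n)) := T.filter fun W => flip v W ∈ A1 ∧ flip v W ∉ A with hI
  have hBdcard : #Bd < t := by
    by_contra hcon
    push Not at hcon
    exact h2 ⟨Bd, filter_subset _ _, hcon, fun W hW => (mem_filter.1 hW).2⟩
  have hIcard : L ≤ #I := by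
    by_contra hcon
    push Not at hcon
    have hU0 : #T - (t + L) ≤ #(T \ (Bd ∪ I)) := by
      have a1 := le_card_sdiff (Bd ∪ I) T
      have a2 := card_union_le Bd I
      omega
    obtain ⟨U, hU, hUc⟩ := exists_subset_card_eq hU0
    apply h3
    refine ⟨U, mem_powersetCard.2 ⟨hU.trans sdiff_subset, hUc⟩, fun W hW => ?_⟩
    by_contra hcon2
    push Not at hcon2
    have hWU := hU hW
    rw [mem_sdiff, mem_union, not_or] at hWU
    obtain ⟨hWT, hWB, hWI⟩ := hWU
    apply hWI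
    rw [hI, mem_filter]
    refine ⟨hWT, ?_, hcon2.1⟩
    rw [hA1, mem_bootStep_cube]
    right
    rw [card_nbhd_inter hk hWT]
    have b1 : ¬ ((#(shared v M k W ∩ A) : ℝ) ≤ (1 / 2 - e) * #(shared v M k W) - x) := by
      intro hb; exact hWB (mem_filter.2 ⟨hWT, hb⟩)
    push Not at b1
    rw [card_shared hk hM hWT] at b1
    have b2 := hcon2.2
    rw [← hN] at b1
    rw [hr]
    linarith
  -- second step
  rw [Function.iterate_succ_apply, Function.iterate_one, ← hA1, mem_bootStep_cube]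
  right
  have hsub : (nbhd k v ∩ A) ∪ I.image (flip v) ⊆ nbhd k v ∩ A1 := by
    intro u hu
    rw [mem_union, mem_inter, mem_image] at hu
    rw [mem_inter]
    rcases hu with hu | ⟨W, hW, rfl⟩
    · exact ⟨hu.1, subset_bootStep _ _ _ hu.2⟩
    · rw [hI, mem_filter] at hW
      refine ⟨?_, hW.2.1⟩
      rw [mem_nbhd, diff_flip, (mem_tops.1 hW.1).2]
      exact ⟨hk, le_rfl⟩
  have hdis : Disjoint (nbhd k v ∩ A) (I.image (flip v)) := by
    rw [disjoint_left]
    intro u hu hu2
    rw [mem_image] at hu2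
    obtain ⟨W, hW, rfl⟩ := hu2
    rw [hI, mem_filter] at hW
    exact hW.2.2 (mem_inter.1 hu).2
  have hcard := card_le_card hsub
  rw [card_union_of_disjoint hdis, card_image_of_injective _ (flip_injective v)] at hcard
  have hcard2 : (#(nbhd k v ∩ A) : ℝ) + #I ≤ #(nbhd k v ∩ A1) := by exact_mod_cast hcard
  have hI2 : (L : ℝ) ≤ #I := by exact_mod_cast hIcard
  rw [card_nbhd', ← hN] at h1
  push Not at h1
  rw [hr]
  linarith

/-- The probability that all the blocks of a subfamily fail. -/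
lemma blocks_fail {p q y : ℝ} (hp0 : 0 ≤ p) (hp1 : p ≤ 1 / 2) {M : ℕ} (hk : 1 ≤ k)
    (v : Cube n) (hq0 : 0 ≤ q)
    (hq : ∀ W ∈ tops n M k, q ≤ Pr p (priv v M k W) (fun B => y ≤ (#B : ℝ)))
    (U : Finset (Finset (Fin n))) (hU : U ⊆ tops n M k) :
    Pr p univ (fun A : Finset (Cube n) => ∀ W ∈ U,
      (flip v W ∈ A ∨ (#(priv v M k W ∩ A) : ℝ) < y)) ≤ Real.exp (-(q / 2 * #U)) := by
  have hp1' : p ≤ 1 := by linarith
  have h1 : Pr p univ (fun A : Finset (Cube n) => ∀ W ∈ U,
      (flip v W ∈ A ∨ (#(priv v M k W ∩ A) : ℝ) < y))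
      = Pr p univ (fun A : Finset (Cube n) => ∀ W ∈ U,
        (fun B : Finset (Cube n) => flip v W ∈ B ∨ (#(priv v M k W ∩ B) : ℝ) < y)
          (A ∩ block v M k W)) := by
    refine Pr_congr fun A _ => forall₂_congr fun W _ => ?_
    have e1 : flip v W ∈ A ∩ block v M k W ↔ flip v W ∈ A := by
      rw [mem_inter, block]; simp
    have e2 : priv v M k W ∩ (A ∩ block v M k W) = priv v M k W ∩ A := by
      have hsub : priv v M k W ⊆ block v M k W := subset_insert _ _
      rw [inter_comm A, ← inter_assoc, inter_eq_left.2 hsub]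
    show _ ↔ (flip v W ∈ A ∩ block v M k W ∨ (#(priv v M k W ∩ (A ∩ block v M k W)) : ℝ) < y)
    rw [e1, e2]
  rw [h1, Pr_forall_indep p univ U (block v M k) (fun _ _ => subset_univ _)
    (fun W hW W' hW' hne => block_disjoint hk (hU hW) (hU hW') hne)
    (fun W (B : Finset (Cube n)) => flip v W ∈ B ∨ (#(priv v M k W ∩ B) : ℝ) < y)]
  have h2 : ∀ W ∈ U, Pr p (block v M k W)
      (fun B => flip v W ∈ B ∨ (#(priv v M k W ∩ B) : ℝ) < y) ≤ Real.exp (-(q / 2)) := by
    intro W hW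
    have hWT := hU hW
    have h3 : Pr p (block v M k W)
        (fun B => ¬ (flip v W ∈ B ∨ (#(priv v M k W ∩ B) : ℝ) < y))
        = Pr p {flip v W} (fun B => flip v W ∉ B) *
          Pr p (priv v M k W) (fun B => y ≤ (#B : ℝ)) := by
      rw [← Pr_and_indep p (s := block v M k W) (t := {flip v W}) (u := priv v M k W)
        (by rw [block]; simp) (subset_insert _ _)
        (by rw [disjoint_singleton_left]; exact flip_notMem_priv hk hWT hWT)]
      refine Pr_congr fun B _ => ?_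
      rw [not_or, not_lt, mem_inter, mem_singleton, inter_comm B (priv v M k W)]
      simp
    have h4 : Pr p {flip v W} (fun B => flip v W ∉ B) = 1 - p := by
      rw [Pr_not, Pr_mem p (mem_singleton_self _)]
    rw [Pr_not, h4] at h3
    have h5 := hq W hWT
    have h6 : q / 2 ≤ (1 - p) * Pr p (priv v M k W) (fun B => y ≤ (#B : ℝ)) := by
      have : 1 / 2 ≤ 1 - p := by linarith
      calc q / 2 = 1 / 2 * q := by ring
        _ ≤ (1 - p) * Pr p (priv v M k W) (fun B => y ≤ (#B : ℝ)) := by gcongr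
    have h7 := Real.add_one_le_exp (-(q / 2))
    linarith
  calc ∏ W ∈ U, Pr p (block v M k W) (fun B => flip v W ∈ B ∨ (#(priv v M k W ∩ B) : ℝ) < y)
      ≤ ∏ _W ∈ U, Real.exp (-(q / 2)) :=
        prod_le_prod (fun W _ => Pr_nonneg hp0 hp1' _ _) h2
    _ = Real.exp (-(q / 2 * #U)) := by
        rw [prod_const, ← Real.exp_nat_mul]; congr 1; ring

/-- The probability that percolation fails. -/
lemma upper_prob {M : ℕ} (hk : 1 ≤ k) (hM : M ≤ n) {e x y z q D : ℝ} {t L : ℕ}
    (he0 : 0 ≤ e) (he1 : e ≤ 1 / 2)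
    (hx : 0 ≤ x) (hz : 0 ≤ z) (hq0 : 0 ≤ q) (ht : 1 ≤ t) (hD : 0 < D)
    (hN : 0 < cubeDegree k n)
    (hy : e * (cubeDegree k n - (n - M).choose k) + x ≤ y)
    (hL : e * cubeDegree k n + z ≤ L)
    (hD2 : (16 : ℝ) ^ k * #(restr n M k) ≤ D)
    (hl : t + L ≤ #(tops n M k))
    (hq : ∀ v : Cube n, ∀ W ∈ tops n M k, q ≤ Pr (1 / 2 - e) (priv v M k W)
      (fun B => ((n - M).choose k : ℝ) / 2 + y ≤ (#B : ℝ))) :
    Pr (1 / 2 - e) univ
      (fun A => ¬ Percolates (distCube k n) ((cubeDegree k n : ℝ) / 2) A) ≤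
      2 ^ n * (Real.exp (-(z ^ 2 / (2 * cubeDegree k n)))
        + (#(tops n M k) : ℝ) ^ t * Real.exp (-(t * (x ^ 2 / (2 * D))))
        + (#(tops n M k) : ℝ) ^ (t + L)
          * Real.exp (-(q / 2 * (#(tops n M k) - (t + L))))) := by
  set p := 1 / 2 - e with hp
  have hp0 : 0 ≤ p := by rw [hp]; linarith
  have hp1 : p ≤ 1 := by rw [hp]; linarith
  set N : ℝ := (cubeDegree k n : ℝ) with hNdef
  have hNpos : 0 < N := by rw [hNdef]; exact_mod_cast hN
  set T := tops n M k with hT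
  -- the three bad events at `v`
  set F1 : Cube n → Finset (Cube n) → Prop := fun v A =>
    (#(nbhd k v ∩ A) : ℝ) ≤ p * #(nbhd k v) - z with hF1
  set F2 : Cube n → Finset (Cube n) → Prop := fun v A =>
    ∃ J ⊆ T, t ≤ #J ∧ ∀ W ∈ J, (#(shared v M k W ∩ A) : ℝ) ≤ p * #(shared v M k W) - x with hF2
  set F3 : Cube n → Finset (Cube n) → Prop := fun v A =>
    ∃ U ∈ powersetCard (#T - (t + L)) T, ∀ W ∈ U,
      (flip v W ∈ A ∨ (#(priv v M k W ∩ A) : ℝ) < ((n - M).choose k : ℝ) / 2 + y) with hF3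
  have hstep : Pr p univ (fun A => ¬ Percolates (distCube k n) (N / 2) A) ≤
      Pr p univ (fun A => ∃ v ∈ (univ : Finset (Cube n)), F1 v A ∨ (F2 v A ∨ F3 v A)) := by
    refine Pr_mono hp0 hp1 fun A _ hA => ?_
    by_contra hcon
    push Not at hcon
    apply hA
    intro v
    obtain ⟨c1, c2, c3⟩ := hcon v (mem_univ v)
    exact ⟨2, infected_two hk hM v A (x := x) (z := z) (t := t) (L := L) hy hL c1 c2 c3⟩
  refine hstep.trans ?_
  have hcount : ((#(univ : Finset (Cube n)) : ℕ) : ℝ) = 2 ^ n := by simp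
  rw [← hcount]
  refine Pr_exists_le_of_le hp0 hp1 univ univ _ fun v _ => ?_
  refine (Pr_or_le hp0 hp1 _ _ _).trans ?_
  rw [add_assoc]
  refine add_le_add ?_ ((Pr_or_le hp0 hp1 _ _ _).trans (add_le_add ?_ ?_))
  · have hnb : (#(nbhd k v) : ℝ) = N := by rw [card_nbhd']
    exact hoeffding_card_le hp0 hp1 (subset_univ (nbhd k v)) (G := N) (z := z) hNpos hnb.le hz
  · refine Pr_many_le hp0 hp1 univ T _ t (Real.exp_pos _).le ?_ _ le_rfl
    intro J hJ hJt
    have hJne : J.Nonempty := card_pos.1 (by omega)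
    have h4 := family_le hp0 hp1 J (shared v M k) (fun _ _ => subset_univ _) hD hx hJne ?_
    · rw [hJt] at h4; exact h4
    · intro W hW
      refine le_trans ?_ hD2
      have h5 := overlap_shared v (hJ hW)
      have h6 : ∑ W' ∈ J, #(shared v M k W ∩ shared v M k W') ≤
          ∑ W' ∈ tops n M k, #(shared v M k W ∩ shared v M k W') :=
        sum_le_sum_of_subset hJ
      exact_mod_cast h6.trans h5
  · refine (Pr_exists_le_of_le hp0 hp1 univ (powersetCard (#T - (t + L)) T) _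
      (b := Real.exp (-(q / 2 * (#T - (t + L))))) ?_).trans ?_
    · intro U hU
      rw [mem_powersetCard] at hU
      have h7 := blocks_fail hp0 (by rw [hp]; linarith) hk v hq0 (hq v) U hU.1
      refine h7.trans (le_of_eq ?_)
      rw [hU.2, Nat.cast_sub hl]
      push_cast
      rfl
    · rw [card_powersetCard, Nat.choose_symm hl]
      have h8 : ((#T).choose (t + L) : ℝ) ≤ (#T : ℝ) ^ (t + L) := by
        exact_mod_cast Nat.choose_le_pow (#T) (t + L)
      gcongr

end Pool.Agent.Lib.MP_b06f47_pr
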