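import Pool.Agent.Lib.MP_b06f47_pr.Upper
import Pool.Agent.Lib.MP_b06f47_pr.LowerMain

/-! Numerical part of the upper bound. -/

open Finset Filter Topology

namespace Pool.Agent.Lib.MP_b06f47_pr

lemma tendsto_log_nat : Tendsto (fun n : ℕ => Real.log n) atTop atTop :=
  Real.tendsto_log_atTop.comp tendsto_natCast_atTop_atTop

lemma tendsto_log_mul_exp :
    Tendsto (fun n : ℕ => Real.log n * Real.exp (-(Real.log n / 4))) atTop (𝓝 0) := by
  have h1 := Real.tendsto_pow_mul_exp_neg_atTop_nhds_zero 1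
  have h2 : Tendsto (fun n : ℕ => Real.log n / 4) atTop atTop :=
    tendsto_log_nat.atTop_div_const (by norm_num)
  have h3 := (h1.comp h2).const_mul 4
  rw [mul_zero] at h3
  refine h3.congr fun n => ?_
  simp only [Function.comp, pow_one]
  ring

/-- Lower bound for the success probability of a block. -/
lemma q_bound {k n M : ℕ} {c : ℝ} (hc : c ^ 2 = kap k / 232) (hc0 : 0 < c)
    (hn : 4 * k + 3 ≤ n) (hM : M ≤ n) (hM2 : n ≤ 2 * (n - M))
    (he : c * ee k n ≤ kap k / 16) (hL : 4 ≤ c ^ 2 * Real.log n)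
    (v : Cube n) (W : Finset (Fin n)) (hW : W ∈ tops n M k) :
    1 / 2 * Real.exp (-(Real.log n / 4)) ≤ Pr (1 / 2 - c * ee k n) (priv v M k W)
      (fun B => ((n - M).choose k : ℝ) / 2 + c * ee k n * (n : ℝ) ^ k ≤ (#B : ℝ)) := by
  have hκ := kap_pos k
  have hκ1 := kap_le_one k
  set κ := kap k with hκdef
  set e := c * ee k n with hedef
  set L := Real.log n with hLdef
  have hL1 : 1 ≤ L := one_le_log (by omega)
  have hnpos : (0 : ℝ) < n := by exact_mod_cast (show 0 < n by omega)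
  have hpow : (0 : ℝ) < (n : ℝ) ^ k := by positivity
  have he0 : 0 ≤ e := mul_nonneg hc0.le (ee_nonneg k n)
  have hesq : e ^ 2 = c ^ 2 * L / (n : ℝ) ^ k := by rw [hedef, mul_pow, ee_sq]; ring
  set y := e * (n : ℝ) ^ k with hy
  have hysq : y ^ 2 = c ^ 2 * L * (n : ℝ) ^ k := by
    rw [hy, mul_pow, hesq]; field_simp
  have hye : y * e = c ^ 2 * L := by
    have : y * e = e ^ 2 * (n : ℝ) ^ k := by rw [hy]; ring
    rw [this, hesq]; field_simp
  set P := priv v M k W with hP
  have hPcard : (#P : ℝ) = ((n - M).choose k : ℝ) := by rw [hP, card_priv hM hW]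
  have hPge : κ * (n : ℝ) ^ k ≤ #P := by rw [hPcard]; exact choose_ge (by omega) hM2
  have hPle : (#P : ℝ) ≤ (n : ℝ) ^ k := by
    rw [hPcard]
    have h1 : (n - M).choose k ≤ n ^ k :=
      (Nat.choose_le_pow _ _).trans (Nat.pow_le_pow_left (Nat.sub_le n M) k)
    exact_mod_cast h1
  have hPpos : (0 : ℝ) < #P := lt_of_lt_of_le (by positivity) hPge
  have h := tilt (e := e) (y := y) he0 (he.trans (by linarith)) P (by exact_mod_cast hPpos)
    (by rw [hysq]
        calc 4 * (#P : ℝ) ≤ 4 * (n : ℝ) ^ k := by gcongr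
          _ ≤ c ^ 2 * L * (n : ℝ) ^ k := by gcongr)
    (by rw [hy]
        calc 16 * (e * (n : ℝ) ^ k) = (16 * e) * (n : ℝ) ^ k := by ring
          _ ≤ κ * (n : ℝ) ^ k := by gcongr; linarith
          _ ≤ #P := hPge)
    (by positivity)
  rw [hPcard] at h
  refine le_trans ?_ h
  rw [← hPcard]
  have hexp : 4 * e ^ 2 * #P + 18 * y * e + 36 * y ^ 2 / #P ≤ L / 4 := by
    have a1 : 4 * e ^ 2 * #P ≤ 4 * (c ^ 2 * L) := by
      rw [hesq]
      calc 4 * (c ^ 2 * L / (n : ℝ) ^ k) * #P ≤ 4 * (c ^ 2 * L / (n : ℝ) ^ k) * (n : ℝ) ^ k := by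
            gcongr
        _ = 4 * (c ^ 2 * L) := by field_simp
    have a2 : 18 * y * e = 18 * (c ^ 2 * L) := by rw [← hye]; ring
    have a3 : 36 * y ^ 2 / #P ≤ 36 * (c ^ 2 * L) / κ := by
      rw [hysq, div_le_div_iff₀ hPpos hκ]
      calc 36 * (c ^ 2 * L * (n : ℝ) ^ k) * κ = 36 * (c ^ 2 * L) * (κ * (n : ℝ) ^ k) := by ring
        _ ≤ 36 * (c ^ 2 * L) * #P := by gcongr
    have a4 : 36 * (c ^ 2 * L) / κ = 36 * L / 232 := by rw [hc]; field_simp
    have a5 : c ^ 2 * L ≤ L / 232 := by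
      rw [hc]
      calc κ / 232 * L ≤ 1 / 232 * L := by gcongr
        _ = L / 232 := by ring
    rw [a4] at a3
    linarith
  gcongr

/-- The final numerical estimate, with all scales made explicit. -/
lemma final_numeric {n T : ℝ} {l nn k : ℕ} {L G τ q : ℝ} (hn1 : 1 ≤ n) (hnn : (nn : ℝ) = n)
    (hk : 2 ≤ k) (hLn : L = Real.log n)
    (hL1 : 1 ≤ L) (hG : 1 ≤ G) (hτ : 0 < τ) (hq : q = 1 / 2 * Real.exp (-(L / 4)))
    (hl : (l : ℝ) ≤ 5 * G * Real.sqrt (n ^ (k + 1)))
    (hTle : T ≤ n ^ k) (hTge : τ * n ^ k ≤ T)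
    (h1 : 10 * G / τ ≤ Real.sqrt n)
    (h2 : L * Real.exp (-(L / 4)) ≤ τ / (56 * G * k)) :
    (l : ℝ) ≤ T / 2 ∧ T ^ l * Real.exp (-(q / 2 * (T - l))) ≤ Real.exp (-(2 * n)) := by
  have hnpos : 0 < n := by linarith
  have hkpos : (0 : ℝ) < k := by exact_mod_cast (show 0 < k by omega)
  have hk2 : (2 : ℝ) ≤ k := by exact_mod_cast hk
  have hsq : 0 < Real.sqrt n := Real.sqrt_pos.2 hnpos
  have hsqsq : Real.sqrt n * Real.sqrt n = n := Real.mul_self_sqrt hnpos.le
  have hpow : 0 < n ^ k := by positivity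
  -- `√(n^{k+1}) ≤ n^k / √n`
  have hroot : Real.sqrt (n ^ (k + 1)) ≤ n ^ k / Real.sqrt n := by
    rw [le_div_iff₀ hsq, ← Real.sqrt_mul (by positivity)]
    rw [Real.sqrt_le_left hpow.le]
    calc n ^ (k + 1) * n = n ^ (k + 2) := by ring
      _ ≤ n ^ (k + k) := pow_le_pow_right₀ hn1 (by omega)
      _ = (n ^ k) ^ 2 := by ring
  have hnroot : n ≤ n ^ k / Real.sqrt n := by
    refine le_trans ?_ hroot
    apply Real.le_sqrt_of_sq_le
    exact pow_le_pow_right₀ hn1 (by omega)
  have hl2 : (l : ℝ) ≤ 5 * G * (n ^ k / Real.sqrt n) := hl.trans (by gcongr)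
  have hTpos : 0 < T := lt_of_lt_of_le (by positivity) hTge
  have hhalf : (l : ℝ) ≤ T / 2 := by
    calc (l : ℝ) ≤ 5 * G * (n ^ k / Real.sqrt n) := hl2
      _ = 5 * G * n ^ k / Real.sqrt n := by ring
      _ ≤ τ * n ^ k / 2 := by
          rw [div_le_div_iff₀ hsq (by norm_num)]
          have h3 : 10 * G ≤ Real.sqrt n * τ := by rwa [div_le_iff₀ hτ] at h1
          calc 5 * G * n ^ k * 2 = (10 * G) * n ^ k := by ring
            _ ≤ (Real.sqrt n * τ) * n ^ k := by gcongr
            _ = τ * n ^ k * Real.sqrt n := by ring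
      _ ≤ T / 2 := by linarith
  refine ⟨hhalf, ?_⟩
  have hq0 : 0 < q := by rw [hq]; positivity
  have hTexp : T ^ l ≤ Real.exp (l * (k * L)) := by
    rw [Real.exp_nat_mul]
    have h4 : n ^ k = Real.exp (k * L) := by
      rw [Real.exp_nat_mul, hLn, Real.exp_log hnpos]
    rw [← h4]
    gcongr
  have hsqexp : 1 / Real.sqrt n = Real.exp (-(L / 2)) := by
    rw [Real.exp_neg, one_div]
    congr 1
    have h5 : Real.exp (L / 2) * Real.exp (L / 2) = n := by
      rw [← Real.exp_add, hLn]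
      have : Real.log n / 2 + Real.log n / 2 = Real.log n := by ring
      rw [this, Real.exp_log hnpos]
    rw [← h5, Real.sqrt_mul_self (Real.exp_pos _).le]
  calc T ^ l * Real.exp (-(q / 2 * (T - l)))
      ≤ Real.exp (l * (k * L)) * Real.exp (-(q / 2 * (T / 2))) := by
        gcongr
        linarith
    _ = Real.exp (l * (k * L) - q / 2 * (T / 2)) := by
        rw [← Real.exp_add, ← sub_eq_add_neg]
    _ ≤ Real.exp (-(2 * n)) := by
        apply Real.exp_le_exp.2
        -- `l k L + 2 n ≤ 7 G k L n^k / √n ≤ q τ n^k / 4`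
        have b1 : l * (k * L) + 2 * n ≤ 7 * G * k * L * (n ^ k / Real.sqrt n) := by
          have c1 : l * (k * L) ≤ 5 * G * (n ^ k / Real.sqrt n) * (k * L) := by gcongr
          have c2 : 2 * n ≤ 2 * G * k * L * (n ^ k / Real.sqrt n) := by
            have c3 : (1 : ℝ) ≤ G * k * L := by
              have : (1 : ℝ) ≤ G * k := by nlinarith
              nlinarith
            calc 2 * n ≤ 2 * (n ^ k / Real.sqrt n) := by linarith
              _ = 2 * 1 * (n ^ k / Real.sqrt n) := by ring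
              _ ≤ 2 * (G * k * L) * (n ^ k / Real.sqrt n) := by gcongr
              _ = _ := by ring
          calc l * (k * L) + 2 * n ≤ 5 * G * (n ^ k / Real.sqrt n) * (k * L)
                + 2 * G * k * L * (n ^ k / Real.sqrt n) := add_le_add c1 c2
            _ = 7 * G * k * L * (n ^ k / Real.sqrt n) := by ring
        have b2 : 7 * G * k * L * (n ^ k / Real.sqrt n) ≤ q / 2 * (τ * n ^ k / 2) := by
          have d1 : n ^ k / Real.sqrt n = n ^ k * Real.exp (-(L / 2)) := by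
            rw [← hsqexp]; ring
          have d2 : Real.exp (-(L / 2)) = Real.exp (-(L / 4)) * Real.exp (-(L / 4)) := by
            rw [← Real.exp_add]; congr 1; ring
          have d3 : 56 * G * k * (L * Real.exp (-(L / 4))) ≤ τ := by
            rwa [le_div_iff₀ (by positivity), mul_comm] at h2
          rw [d1, d2, hq]
          calc 7 * G * k * L * (n ^ k * (Real.exp (-(L / 4)) * Real.exp (-(L / 4))))
              = (56 * G * k * (L * Real.exp (-(L / 4)))) * (n ^ k * Real.exp (-(L / 4)) / 8) := by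
                ring
            _ ≤ τ * (n ^ k * Real.exp (-(L / 4)) / 8) := by gcongr
            _ = 1 / 2 * Real.exp (-(L / 4)) / 2 * (τ * n ^ k / 2) := by ring
        have b3 : q / 2 * (τ * n ^ k / 2) ≤ q / 2 * (T / 2) := by gcongr
        linarith

set_option maxHeartbeats 2000000 in
lemma upper_main {k : ℕ} (hk : 2 ≤ k) : ∃ c : ℝ, 0 < c ∧ c ≤ 1 ∧ ∀ᶠ n : ℕ in atTop,
    0 < 1 / 2 - c * ee k n ∧
    1 / 2 < Pr (1 / 2 - c * ee k n) univ
      (Percolates (distCube k n) ((cubeDegree k n : ℝ) / 2)) := by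
  have hκ := kap_pos k
  have hκ1 := kap_le_one k
  set κ := kap k with hκdef
  have hk' : (2 : ℝ) ≤ k := by exact_mod_cast hk
  set c : ℝ := Real.sqrt (κ / 232) with hcdef
  have hc : c ^ 2 = κ / 232 := by rw [hcdef]; exact Real.sq_sqrt (by positivity)
  have hc0 : 0 < c := Real.sqrt_pos.2 (by positivity)
  have hc1 : c ≤ 1 := by
    by_contra hcon; push Not at hcon; nlinarith
  -- the constant `K`
  obtain ⟨K, hK⟩ := exists_nat_ge (((k : ℝ) + 3) * k * 16 ^ (k + 1) / c ^ 2)
  have hKlarge : ((k : ℝ) + 3) * k * 16 ^ (k + 1) ≤ c ^ 2 * K := by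
    rwa [div_le_iff₀ (by positivity), mul_comm (K : ℝ)] at hK
  have h16 : (1 : ℝ) ≤ 16 ^ k := one_le_pow₀ (by norm_num)
  have hc21 : c ^ 2 ≤ 1 := by rw [hc]; linarith
  have hK2 : 4 * k * 16 ^ k ≤ (K : ℝ) := by
    have h1 : c ^ 2 * K ≤ 1 * K := by gcongr
    have h2 : (4 : ℝ) * k * 16 ^ k ≤ ((k : ℝ) + 3) * k * 16 ^ (k + 1) := by
      rw [pow_succ]
      have : (0 : ℝ) < k * 16 ^ k := by positivity
      nlinarith
    linarith
  have hK4 : (4 : ℝ) ≤ K := by
    have : (4 : ℝ) * 1 * 1 ≤ 4 * k * 16 ^ k := by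
      have : (1 : ℝ) ≤ k := by linarith
      gcongr
    linarith
  have hK4' : 4 ≤ K := by exact_mod_cast hK4
  have hKpos : (0 : ℝ) < K := by linarith
  set G : ℝ := (k : ℝ) + 1 with hG
  set τ : ℝ := 1 / ((2 * K) ^ k * k.factorial) with hτdef
  have hτ : 0 < τ := by rw [hτdef]; positivity
  refine ⟨c, hc0, hc1, ?_⟩
  -- eventual conditions
  have ev1 : ∀ᶠ n : ℕ in atTop, c * ee k n < κ / 16 := by
    have h1 : Tendsto (fun n : ℕ => c * ee k n) atTop (𝓝 (c * 0)) :=
      (tendsto_ee (by omega)).const_mul c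
    rw [mul_zero] at h1
    exact h1.eventually_lt_const (by positivity)
  have ev2 : ∀ᶠ n : ℕ in atTop, 4 / c ^ 2 ≤ Real.log n := tendsto_log_nat.eventually_ge_atTop _
  have ev3 : ∀ᶠ n : ℕ in atTop, 10 * G / τ ≤ Real.sqrt n :=
    (Real.tendsto_sqrt_atTop.comp tendsto_natCast_atTop_atTop).eventually_ge_atTop _
  have ev4 : ∀ᶠ n : ℕ in atTop, Real.log n * Real.exp (-(Real.log n / 4)) < τ / (56 * G * k) :=
    tendsto_log_mul_exp.eventually_lt_const (by positivity)
  filter_upwards [ev1, ev2, ev3, ev4, eventually_ge_atTop (4 * k + 3),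
    eventually_ge_atTop (2 * k * K)] with n hn1 hn2 hn3 hn4 hn5 hn6
  set e := c * ee k n with hedef
  have he0 : 0 ≤ e := mul_nonneg hc0.le (ee_nonneg k n)
  have hn3' : 3 ≤ n := by omega
  set L := Real.log n with hLdef
  have hL1 : 1 ≤ L := one_le_log hn3'
  have hcL : 4 ≤ c ^ 2 * L := by
    rwa [div_le_iff₀ (by positivity), mul_comm] at hn2
  have hn1r : (1 : ℝ) ≤ n := by exact_mod_cast (show 1 ≤ n by omega)
  have hnpos : (0 : ℝ) < n := by linarith
  have hpow : (0 : ℝ) < (n : ℝ) ^ k := by positivity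
  have hesq : e ^ 2 = c ^ 2 * L / (n : ℝ) ^ k := by rw [hedef, mul_pow, ee_sq]; ring
  set y := e * (n : ℝ) ^ k with hy
  have hysq : y ^ 2 = c ^ 2 * L * (n : ℝ) ^ k := by rw [hy, mul_pow, hesq]; field_simp
  have hy0 : 0 ≤ y := by positivity
  -- the parameter `M`
  set M := n / K with hMdef
  have hMn : M ≤ n := Nat.div_le_self n K
  have hM4 : 4 * M ≤ n := by
    calc 4 * M ≤ K * M := Nat.mul_le_mul_right M hK4'
      _ ≤ n := Nat.mul_div_le n K
  have hMlow : (n : ℝ) / K ≤ M + 1 := by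
    rw [div_le_iff₀ hKpos]
    have : n < (M + 1) * K := by
      rw [hMdef, mul_comm]; exact Nat.lt_mul_div_succ n (by omega)
    exact_mod_cast this.le
  have hMup : (M : ℝ) + 1 ≤ 2 * n / K := by
    have h1 : (M : ℝ) ≤ n / K := by
      rw [le_div_iff₀ hKpos]
      have : M * K ≤ n := Nat.div_mul_le_self n K
      exact_mod_cast this
    have h2 : (1 : ℝ) ≤ n / K := by
      rw [le_div_iff₀ hKpos, one_mul]
      have : K ≤ n := by nlinarith
      exact_mod_cast this
    have h3 : (2 : ℝ) * n / K = n / K + n / K := by ring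
    linarith
  -- the size of `T`
  set T : ℝ := (#(tops n M k) : ℝ) with hT
  have hTcard : T = (M.choose k : ℝ) := by rw [hT, card_tops hMn]
  have hTle : T ≤ (n : ℝ) ^ k := by
    rw [hTcard]
    have : M.choose k ≤ n ^ k := (Nat.choose_le_pow _ _).trans (Nat.pow_le_pow_left hMn k)
    exact_mod_cast this
  have hTge : τ * (n : ℝ) ^ k ≤ T := by
    rw [hTcard]
    refine le_trans ?_ (Nat.pow_le_choose (α := ℝ) k M)
    have h1 : (n : ℝ) / (2 * K) ≤ ((M + 1 - k : ℕ) : ℝ) := by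
      have hkM : k ≤ M + 1 := by
        have : k ≤ n / K := by
          rw [Nat.le_div_iff_mul_le (by omega)]
          nlinarith
        omega
      rw [Nat.cast_sub hkM]
      push_cast
      have h2 : (n : ℝ) / K = n / (2 * K) + n / (2 * K) := by field_simp; ring
      have h3 : (k : ℝ) ≤ n / (2 * K) := by
        rw [le_div_iff₀ (by positivity)]
        have : k * (2 * K) ≤ n := by nlinarith
        exact_mod_cast this
      linarith
    calc τ * (n : ℝ) ^ k = ((n : ℝ) / (2 * K)) ^ k / k.factorial := by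
          rw [hτdef, div_pow]; field_simp
      _ ≤ ((M + 1 - k : ℕ) : ℝ) ^ k / k.factorial := by gcongr
  have hTpos : 0 < T := lt_of_lt_of_le (by positivity) hTge
  -- degree
  set N : ℝ := (cubeDegree k n : ℝ) with hN
  have hNge : κ * (n : ℝ) ^ k ≤ N := degree_ge (by omega) (by omega)
  have hNpos : 0 < N := lt_of_lt_of_le (by positivity) hNge
  have hNnat : 0 < cubeDegree k n := by
    have : (0 : ℝ) < (cubeDegree k n : ℝ) := hNpos
    exact_mod_cast this
  have hNle : N ≤ G * (n : ℝ) ^ k := by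
    have h1 := card_small_le (n := n) (by omega) k
    have h2 := card_small_eq (n := n) k (fun _ => false)
    rw [card_nbhd'] at h2
    have h3 : cubeDegree k n ≤ (k + 1) * n ^ k := by omega
    rw [hN, hG]; exact_mod_cast h3
  -- the overlap bound
  set D : ℝ := 2 * k * 16 ^ k * (n : ℝ) ^ k / K with hD
  have hDpos : 0 < D := by positivity
  have hrestr : (16 : ℝ) ^ k * #(restr n M k) ≤ D := by
    have h1 := card_restr_le (k := k) (by omega) hMn
    have h2 := card_small_le (n := n) (by omega) (k - 1)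
    have h3 : #(restr n M k) ≤ (M + 1) * (k * n ^ (k - 1)) := by
      refine h1.trans (Nat.mul_le_mul_left _ ?_)
      have : k - 1 + 1 = k := by omega
      rwa [this] at h2
    have h4 : (#(restr n M k) : ℝ) ≤ (M + 1) * (k * (n : ℝ) ^ (k - 1)) := by exact_mod_cast h3
    calc (16 : ℝ) ^ k * #(restr n M k) ≤ 16 ^ k * ((M + 1) * (k * (n : ℝ) ^ (k - 1))) := by
          gcongr
      _ ≤ 16 ^ k * ((2 * n / K) * (k * (n : ℝ) ^ (k - 1))) := by gcongr
      _ = 2 * k * 16 ^ k * ((n : ℝ) ^ (k - 1) * n) / K := by ring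
      _ = D := by rw [← pow_succ, hD]; congr 4; omega
  have hDhalf : D ≤ (n : ℝ) ^ k / 2 := by
    rw [hD, div_le_div_iff₀ hKpos (by norm_num)]
    calc 2 * (k : ℝ) * 16 ^ k * (n : ℝ) ^ k * 2 = (4 * k * 16 ^ k) * (n : ℝ) ^ k := by ring
      _ ≤ K * (n : ℝ) ^ k := by gcongr
      _ = (n : ℝ) ^ k * K := by ring
  have hshared : N - ((n - M).choose k : ℝ) ≤ D := by
    have hne : (tops n M k).Nonempty := by
      rw [← card_pos]; have : (0 : ℝ) < (#(tops n M k) : ℝ) := hTpos
      exact_mod_cast this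
    obtain ⟨W, hW⟩ := hne
    have h1 := overlap_shared (fun _ => false) hW
    have h2 : #(shared (fun _ => false) M k W ∩ shared (fun _ => false) M k W) ≤
        ∑ W' ∈ tops n M k, #(shared (fun _ => false) M k W ∩ shared (fun _ => false) M k W') :=
      single_le_sum (f := fun W' => #(shared (fun _ => false) M k W ∩
        shared (fun _ => false) M k W')) (fun _ _ => Nat.zero_le _) hW
    rw [inter_self] at h2
    have h3 := card_shared (v := fun _ => false) (k := k) (by omega) hMn hW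
    rw [← hN] at h3
    rw [← h3]
    refine le_trans ?_ hrestr
    exact_mod_cast h2.trans h1
  -- apply the probabilistic lemma
  set z : ℝ := 2 * Real.sqrt (n * N) with hz
  obtain ⟨Ln, hLn⟩ : ∃ Ln : ℕ, Ln = ⌈e * N + z⌉₊ := ⟨_, rfl⟩
  have hLn1 : e * N + z ≤ Ln := by rw [hLn]; exact Nat.le_ceil _
  have hz0 : 0 ≤ z := by positivity
  have hLn2 : (Ln : ℝ) < e * N + z + 1 := by
    rw [hLn]; exact Nat.ceil_lt_add_one (by positivity)
  have hG1 : 1 ≤ G := by rw [hG]; linarith
  have hl : ((n + Ln : ℕ) : ℝ) ≤ 5 * G * Real.sqrt ((n : ℝ) ^ (k + 1)) := by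
    set R := Real.sqrt ((n : ℝ) ^ (k + 1)) with hR
    have hR1 : (n : ℝ) ≤ R := by
      rw [hR]; apply Real.le_sqrt_of_sq_le
      exact pow_le_pow_right₀ hn1r (by omega)
    have hR2 : e * N ≤ G * R := by
      have h1 : e * (n : ℝ) ^ k ≤ R := by
        rw [hR]; apply Real.le_sqrt_of_sq_le
        rw [← hy, hysq]
        have hLn' : L ≤ n := by
          have := Real.log_le_sub_one_of_pos hnpos
          rw [← hLdef] at this; linarith
        calc c ^ 2 * L * (n : ℝ) ^ k ≤ 1 * n * (n : ℝ) ^ k := by gcongr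
          _ = (n : ℝ) ^ (k + 1) := by ring
      calc e * N ≤ e * (G * (n : ℝ) ^ k) := by gcongr
        _ = G * (e * (n : ℝ) ^ k) := by ring
        _ ≤ G * R := by gcongr
    have hR3 : z ≤ 2 * G * R := by
      rw [hz]
      have h1 : Real.sqrt (n * N) ≤ G * R := by
        rw [hR]
        apply Real.sqrt_le_iff.2
        refine ⟨by positivity, ?_⟩
        rw [mul_pow, Real.sq_sqrt (by positivity)]
        calc (n : ℝ) * N ≤ n * (G * (n : ℝ) ^ k) := by gcongr
          _ = G * (n : ℝ) ^ (k + 1) := by ring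
          _ ≤ G ^ 2 * (n : ℝ) ^ (k + 1) := by
              have : G ≤ G ^ 2 := by nlinarith
              gcongr
      linarith
    push_cast
    have hRpos : 0 ≤ R := Real.sqrt_nonneg _
    have h1R : (1 : ℝ) ≤ R := hn1r.trans hR1
    have hGR : R ≤ G * R := le_mul_of_one_le_left hRpos hG1
    linarith
  have hfin := final_numeric (n := n) (T := T) (l := n + Ln) (nn := n) (k := k) (L := L)
    (G := G) (τ := τ) (q := 1 / 2 * Real.exp (-(L / 4))) hn1r rfl hk hLdef hL1 hG1 hτ rfl hl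
    hTle hTge hn3 hn4.le
  have hlT : n + Ln ≤ #(tops n M k) := by
    have h1 : ((n + Ln : ℕ) : ℝ) ≤ (#(tops n M k) : ℝ) := by
      have := hfin.1
      rw [← hT]; linarith
    exact_mod_cast h1
  have hmain := upper_prob (k := k) (n := n) (M := M) (e := e) (x := y / 2) (y := y) (z := z)
    (q := 1 / 2 * Real.exp (-(L / 4))) (D := D) (t := n) (L := Ln) (by omega) hMn he0
    (by linarith) (by positivity) hz0 (by positivity) (by omega) hDpos hNnat
    (by
      rw [← hN]
      have h1 : e * (N - ((n - M).choose k : ℝ)) ≤ e * ((n : ℝ) ^ k / 2) := by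
        gcongr; linarith
      have h2 : e * ((n : ℝ) ^ k / 2) = y / 2 := by rw [hy]; ring
      linarith)
    (by rw [← hN]; exact hLn1) hrestr hlT
    (fun v W hW => q_bound hc hc0 hn5 hMn (by omega) hn1.le hcL v W hW)
  rw [← hN, ← hT] at hmain
  -- the three terms
  have s1 : Real.exp (-(z ^ 2 / (2 * N))) ≤ Real.exp (-(2 * n)) := by
    apply Real.exp_le_exp.2
    rw [neg_le_neg_iff, hz, mul_pow, Real.sq_sqrt (by positivity)]
    rw [le_div_iff₀ (by positivity)]
    apply le_of_eq; ring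
  have s2 : T ^ n * Real.exp (-(n * ((y / 2) ^ 2 / (2 * D)))) ≤ Real.exp (-(2 * n)) := by
    have h1 : ((k : ℝ) + 3) * L ≤ (y / 2) ^ 2 / (2 * D) := by
      rw [le_div_iff₀ (by positivity), div_pow, hysq, hD]
      have h2 : ((k : ℝ) + 3) * L * (2 * (2 * k * 16 ^ k * (n : ℝ) ^ k / K))
          = (((k : ℝ) + 3) * k * 16 ^ (k + 1)) * (L * (n : ℝ) ^ k) / (4 * K) := by
        rw [pow_succ]; field_simp; ring
      have h3 : c ^ 2 * L * (n : ℝ) ^ k / 2 ^ 2
          = (c ^ 2 * K) * (L * (n : ℝ) ^ k) / (4 * K) := by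
        field_simp; norm_num
      rw [h2, h3]
      gcongr
    have h4 : T ^ n ≤ Real.exp (n * (k * L)) := by
      rw [Real.exp_nat_mul]
      have h5 : (n : ℝ) ^ k = Real.exp (k * L) := by
        rw [Real.exp_nat_mul, hLdef, Real.exp_log hnpos]
      rw [← h5]
      gcongr
    calc T ^ n * Real.exp (-(n * ((y / 2) ^ 2 / (2 * D))))
        ≤ Real.exp (n * (k * L)) * Real.exp (-(n * (((k : ℝ) + 3) * L))) := by gcongr
      _ = Real.exp (-(3 * n * L)) := by rw [← Real.exp_add]; congr 1; ring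
      _ ≤ Real.exp (-(2 * n)) := by
          apply Real.exp_le_exp.2
          nlinarith
  have s3 := hfin.2
  have hcast : ((n + Ln : ℕ) : ℝ) = (n : ℝ) + Ln := by push_cast; ring
  rw [hcast] at s3
  have htot : Pr (1 / 2 - e) univ
      (fun A => ¬ Percolates (distCube k n) (N / 2) A) ≤ 2 ^ n * (3 * Real.exp (-(2 * n))) := by
    refine hmain.trans ?_
    have : Real.exp (-(z ^ 2 / (2 * N))) + T ^ n * Real.exp (-(n * ((y / 2) ^ 2 / (2 * D))))
        + T ^ (n + Ln) * Real.exp (-(1 / 2 * Real.exp (-(L / 4)) / 2 * (T - (n + Ln))))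
        ≤ 3 * Real.exp (-(2 * n)) := by linarith
    gcongr
  have hlast : (2 : ℝ) ^ n * (3 * Real.exp (-(2 * n))) < 1 / 2 := by
    have h1 : Real.exp (-(2 * (n : ℝ))) = Real.exp (-2) ^ n := by
      rw [← Real.exp_nat_mul]; congr 1; ring
    rw [h1]
    have h2 : (2 : ℝ) ^ n * (3 * Real.exp (-2) ^ n) = 3 * (2 * Real.exp (-2)) ^ n := by
      rw [mul_pow]; ring
    rw [h2]
    have h3 : 2 * Real.exp (-2) ≤ 1 / 2 := by have := exp_neg_two_le; linarith
    have h4 : (2 * Real.exp (-2)) ^ n ≤ (1 / 2 : ℝ) ^ n := by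
      have : 0 ≤ 2 * Real.exp (-2) := by positivity
      gcongr
    have h5 : (1 / 2 : ℝ) ^ n ≤ (1 / 2) ^ 3 :=
      pow_le_pow_of_le_one (by norm_num) (by norm_num) hn3'
    linarith
  refine ⟨by linarith, ?_⟩
  rw [Pr_not] at htot
  linarith

end Pool.Agent.Lib.MP_b06f47_pr
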